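import Mathlib
import Pool.Agent.TH83.SQ.Defs

/-!
Definitions and statements (NOT results) of the bricks of the project on sums of sets closed under
`gcd` and `lcm` (owner helper49, problem MP_cc0731_co).
-/

set_option autoImplicit false

namespace Pool.Agent.K3h49.Lat

open Finset
open scoped Pointwise Classical
open Pool.Agent.TH83.SQ (cls dil pr tau)

/-- the Shannon entropy of the residue modulo `Q` of a random element of `T` -/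
noncomputable def ent (Q : ℤ) (T : Finset ℤ) : ℝ :=
  Real.log T.card - (∑ t ∈ T, Real.log ((cls Q T t).card : ℝ)) / T.card

/-- GEN: in a large set `P` of pairwise coprime integers there is `q` with a prime power
`ℓ ^ b`, `ℓ ^ (n (b - 1) + 1) ∣ q`, such that the products of subsets of the other elements
are spread modulo `ℓ ^ b`. -/
def GenStm : Prop :=
  ∀ n : ℕ, 1 ≤ n → ∀ β : ℝ, 0 < β → ∃ m₀ : ℕ, ∀ P : Finset ℕ, (∀ q ∈ P, 2 ≤ q) →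
    (∀ q ∈ P, ∀ q' ∈ P, q ≠ q' → Nat.Coprime q q') → m₀ ≤ P.card →
    ∃ q ∈ P, ∃ ℓ b : ℕ, ℓ.Prime ∧ 1 ≤ b ∧ ℓ ^ (n * (b - 1) + 1) ∣ q ∧
      ∀ r : ℤ, (((P.erase q).powerset.filter fun s => ((ℓ : ℤ) ^ b) ∣ pr s - r).card : ℝ) ≤
        β * 2 ^ (P.card - 1)

/-- MIX: the generic case of the induction step -/
def MixStm : Prop :=
  ∀ (P : Finset ℕ) (X B : Finset ℤ) (Q₁ Q₂ : ℤ), Q₁ ∣ Q₂ → ∀ T U : Finset ℤ, T ⊆ X → T.Nonempty →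
    U ⊆ B → U.Nonempty → ∀ β : ℝ, 0 ≤ β →
    (∀ t ∈ T, ∀ t' ∈ T, ¬ Q₁ ∣ t - t' → ∀ r : ℤ,
      ((P.powerset.filter fun s => Q₂ ∣ pr s * (t - t') + r).card : ℝ) ≤ β * 2 ^ P.card) →
    (1 - ((T.card : ℝ) * U.card) ^ 2 * β) * (ent Q₁ T + ent Q₁ U) +
      (∑ t ∈ T, ∑ v ∈ U, tau P (cls Q₂ X t) (cls Q₂ B v)) / (T.card * U.card) ≤ tau P X B

/-- CHAIN: adding to a set of multiples of `u` a set without multiples of `u` -/
def ChainStm : Prop :=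
  ∀ ε : ℝ, 0 < ε → ε < 1 → ∀ (u : ℤ) (X Y : Finset ℤ), (∀ y ∈ Y, u ∣ y) → (∀ x ∈ X, ¬ u ∣ x) →
    ∀ W w : ℝ, 0 ≤ W → 0 ≤ w →
    (∀ B : Finset ℤ, B.Nonempty → W * (B.card : ℝ) ^ (1 - ε) ≤ ((Y + B).card : ℝ)) →
    (∀ B : Finset ℤ, B.Nonempty → w * (B.card : ℝ) ^ (1 - ε) ≤ ((X + B).card : ℝ)) →
    ∀ B : Finset ℤ, B.Nonempty →
      (W + ((2 : ℝ) ^ ε - 1) / 4 * w) * (B.card : ℝ) ^ (1 - ε) ≤ (((X ∪ Y) + B).card : ℝ)

/-- ATOMS: a set `L` closed under `gcd` and `lcm`, each atom of which is avoided by a proportion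
`1 / R` of the elements, contains the products of a large subset with the divisors of a product of
many pairwise coprime integers. -/
def AtomsStm : Prop :=
  ∀ L : Finset ℕ, (∀ a ∈ L, 0 < a) → (∀ a ∈ L, ∀ b ∈ L, Nat.gcd a b ∈ L) →
    (∀ a ∈ L, ∀ b ∈ L, Nat.lcm a b ∈ L) → ∀ h ∈ L, (∀ a ∈ L, h ∣ a) → ∀ R : ℝ, 1 < R →
    (∀ u ∈ L, u ≠ h → (∀ a ∈ L, a ∣ u → a = h ∨ a = u) →
      (L.card : ℝ) ≤ R * ((L.filter fun a => ¬ u ∣ a).card : ℝ)) →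
    ∀ s : ℕ, R ^ s ≤ L.card →
    ∃ P : Finset ℕ, P.card = s ∧ (∀ q ∈ P, 2 ≤ q) ∧
      (∀ q ∈ P, ∀ q' ∈ P, q ≠ q' → Nat.Coprime q q') ∧
      ∃ X ⊆ L, X.Nonempty ∧ (L.card : ℝ) ≤ R ^ s * X.card ∧
        ∀ S ⊆ P, ∀ x ∈ X, (∏ q ∈ S, q) * x ∈ L

end Pool.Agent.K3h49.Lat
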