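import Pool.Agent.TH83.SQ.Dil
import Pool.Agent.K3h49.Lat.Stm

/-!
Averages of `log |d X + B|` over divisors `d`: splitting inequalities for general moduli.
-/

set_option autoImplicit false

namespace Pool.Agent.K3h49.Lat

open Finset Pool.Agent.TH83.SQ
open scoped Pointwise

theorem gI {q Q Q' : ℤ} (hQ : Q' ∣ q * Q) (P : Finset ℕ) (X B : Finset ℤ) (x₀ : ℤ)
    (hx₀ : x₀ ∈ X) (U : Finset ℤ) (hU : U ⊆ B) (hUn : U.Nonempty)
    (hUi : ∀ t ∈ U, ∀ t' ∈ U, Q' ∣ t - t' → t = t') :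
    Real.log U.card + (∑ t ∈ U, tau P (dil q (cls Q X x₀)) (cls Q' B t)) / U.card ≤
      tau P (dil q X) B := by
  refine TH959.SQ.tau_avg P U (fun _ => dil q (cls Q X x₀)) (fun t => cls Q' B t) (dil q X) B ?_
  intro s _
  refine TH959.SQ.log_split U hUn _ _ ?_ ?_ ?_
  · intro t _
    exact Finset.add_subset_add (TH959.SQ.dil_mono (TH959.SQ.dil_mono (TH959.SQ.cls_subset _ _ _)))
      (TH959.SQ.cls_subset _ _ _)
  · intro t ht
    exact (TH959.SQ.dil_nonempty (TH959.SQ.dil_nonempty ⟨x₀, TH959.SQ.self_mem_cls hx₀⟩)).add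
      ⟨t, TH959.SQ.self_mem_cls (hU ht)⟩
  · intro t ht t' ht' htt
    rw [Finset.disjoint_left]
    intro z hz hz'
    apply htt
    have key : ∀ t, z ∈ dil (pr s) (dil q (cls Q X x₀)) + cls Q' B t →
        Q' ∣ z - (pr s * (q * x₀) + t) := by
      intro t hz
      obtain ⟨a, ha, b, hb, rfl⟩ := Finset.mem_add.1 hz
      obtain ⟨a', ha', rfl⟩ := TH959.SQ.mem_dil.1 ha
      obtain ⟨x, hx, rfl⟩ := TH959.SQ.mem_dil.1 ha'
      have h1 := (TH959.SQ.mem_cls.1 hx).2
      have h2 := (TH959.SQ.mem_cls.1 hb).2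
      have h3 : Q' ∣ pr s * (q * (x - x₀)) :=
        Dvd.dvd.mul_left (hQ.trans (mul_dvd_mul_left _ h1)) _
      have h4 : pr s * (q * x) + b - (pr s * (q * x₀) + t) =
          pr s * (q * (x - x₀)) + (b - t) := by ring
      rw [h4]
      exact dvd_add h3 h2
    have h5 := key t hz
    have h6 := key t' hz'
    have h7 := dvd_sub h6 h5
    refine hUi t ht t' ht' ?_
    have h8 : z - (pr s * (q * x₀) + t') - (z - (pr s * (q * x₀) + t)) = t - t' := by ring
    rwa [h8] at h7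

theorem gIIa {Q : ℤ} (P : Finset ℕ) (hP : ∀ s ⊆ P, IsCoprime Q (pr s))
    (X B : Finset ℤ) (T : Finset ℤ) (hT : T ⊆ X) (hTn : T.Nonempty)
    (hTi : ∀ t ∈ T, ∀ t' ∈ T, Q ∣ t - t' → t = t') (b₀ : ℤ) (hb₀ : b₀ ∈ B) :
    Real.log T.card + (∑ t ∈ T, tau P (cls Q X t) (cls Q B b₀)) / T.card ≤ tau P X B := by
  refine TH959.SQ.tau_avg P T (fun t => cls Q X t) (fun _ => cls Q B b₀) X B ?_
  intro s hs
  have hcop := hP s hs
  refine TH959.SQ.log_split T hTn _ _ ?_ ?_ ?_
  · intro t _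
    exact Finset.add_subset_add (TH959.SQ.dil_mono (TH959.SQ.cls_subset _ _ _))
      (TH959.SQ.cls_subset _ _ _)
  · intro t ht
    exact (TH959.SQ.dil_nonempty ⟨t, TH959.SQ.self_mem_cls (hT ht)⟩).add
      ⟨b₀, TH959.SQ.self_mem_cls hb₀⟩
  · intro t ht t' ht' htt
    rw [Finset.disjoint_left]
    intro z hz hz'
    apply htt
    have key : ∀ t, z ∈ dil (pr s) (cls Q X t) + cls Q B b₀ → Q ∣ z - (pr s * t + b₀) := by
      intro t hz
      obtain ⟨a, ha, b, hb, rfl⟩ := Finset.mem_add.1 hz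
      obtain ⟨x, hx, rfl⟩ := TH959.SQ.mem_dil.1 ha
      have h1 := (TH959.SQ.mem_cls.1 hx).2
      have h2 := (TH959.SQ.mem_cls.1 hb).2
      have h3 : Q ∣ pr s * (x - t) := h1.mul_left _
      have h4 : pr s * x + b - (pr s * t + b₀) = pr s * (x - t) + (b - b₀) := by ring
      rw [h4]
      exact dvd_add h3 h2
    have h5 := key t hz
    have h6 := key t' hz'
    have h7 := dvd_sub h6 h5
    refine hTi t ht t' ht' ?_
    have h8 : z - (pr s * t' + b₀) - (z - (pr s * t + b₀)) = pr s * (t - t') := by ring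
    rw [h8] at h7
    exact hcop.dvd_of_dvd_mul_left h7

/-- nested classes -/
theorem cls_mono {Q Q' : ℤ} (h : Q ∣ Q') (X : Finset ℤ) (t : ℤ) : cls Q' X t ⊆ cls Q X t := by
  intro x hx
  rw [TH959.SQ.mem_cls] at hx ⊢
  exact ⟨hx.1, h.trans hx.2⟩

theorem ent_le (Q : ℤ) (T : Finset ℤ) : ent Q T ≤ Real.log T.card := by
  unfold ent
  have : 0 ≤ (∑ t ∈ T, Real.log ((cls Q T t).card : ℝ)) / T.card :=
    div_nonneg (Finset.sum_nonneg fun t _ => Real.log_natCast_nonneg _) (Nat.cast_nonneg _)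
  linarith

/-- a class modulo `Q` contains the selected subclasses -/
theorem cls_card_ge {Q Q' : ℤ} (h : Q ∣ Q') {X T : Finset ℤ}
    (hTi : ∀ t ∈ T, ∀ t' ∈ T, Q' ∣ t - t' → t = t') {M : ℝ} 
    (hM : ∀ t ∈ T, M ≤ ((cls Q' X t).card : ℝ)) (t : ℤ) :
    ((cls Q T t).card : ℝ) * M ≤ ((cls Q X t).card : ℝ) := by
  have h1 : ∑ t' ∈ cls Q T t, (cls Q' X t').card ≤ (cls Q X t).card := by
    rw [← Finset.card_biUnion]
    · apply Finset.card_le_card
      intro x hx
      obtain ⟨t', ht', hx'⟩ := Finset.mem_biUnion.1 hx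
      rw [TH959.SQ.mem_cls] at hx' ht' ⊢
      refine ⟨hx'.1, ?_⟩
      have e : x - t = (x - t') + (t' - t) := by ring
      rw [e]
      exact dvd_add (h.trans hx'.2) ht'.2
    · intro t₁ ht₁ t₂ ht₂ hne
      show Disjoint (cls Q' X t₁) (cls Q' X t₂)
      rw [Finset.disjoint_left]
      intro x hx hx'
      apply hne
      apply hTi t₁ (TH959.SQ.mem_cls.1 ht₁).1 t₂ (TH959.SQ.mem_cls.1 ht₂).1
      have h1 := (TH959.SQ.mem_cls.1 hx).2
      have h2 := (TH959.SQ.mem_cls.1 hx').2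
      have : t₁ - t₂ = (x - t₂) - (x - t₁) := by ring
      rw [this]
      exact dvd_sub h2 h1
  calc ((cls Q T t).card : ℝ) * M = ∑ _t' ∈ cls Q T t, M := by
        rw [Finset.sum_const, nsmul_eq_mul]
    _ ≤ ∑ t' ∈ cls Q T t, ((cls Q' X t').card : ℝ) :=
        Finset.sum_le_sum fun t' ht' => hM t' (TH959.SQ.mem_cls.1 ht').1
    _ ≤ _ := by exact_mod_cast h1

/-- the average size of the classes, in terms of the entropy -/
theorem avg_cls_ge {Q Q' : ℤ} (h : Q ∣ Q') {X T : Finset ℤ} (hTn : T.Nonempty) (hT : T ⊆ X)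
    (hTi : ∀ t ∈ T, ∀ t' ∈ T, Q' ∣ t - t' → t = t') {i : ℕ}
    (h1 : ∀ t ∈ T, Real.log X.card - (i + 1) * Real.log 2 ≤ Real.log (cls Q' X t).card)
    (h2 : i * Real.log 2 - psi i ≤ Real.log T.card) :
    Real.log X.card - Real.log 2 - psi i - ent Q T ≤
      (∑ t ∈ T, Real.log ((cls Q X t).card : ℝ)) / T.card := by
  have cT : (0 : ℝ) < T.card := by exact_mod_cast hTn.card_pos
  have key : ∀ t ∈ T, Real.log ((cls Q T t).card : ℝ) +
      (Real.log X.card - (i + 1) * Real.log 2) ≤ Real.log ((cls Q X t).card : ℝ) := by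
    intro t ht
    set M : ℝ := Real.exp (Real.log X.card - (i + 1) * Real.log 2) with hM
    have hM0 : 0 < M := Real.exp_pos _
    have hMle : ∀ t ∈ T, M ≤ ((cls Q' X t).card : ℝ) := by
      intro t ht
      have c0 : (0 : ℝ) < (cls Q' X t).card := by
        exact_mod_cast (cls_nonempty Q' (hT ht)).card_pos
      rw [hM]
      calc _ ≤ Real.exp (Real.log (cls Q' X t).card) := Real.exp_le_exp.2 (h1 t ht)
        _ = _ := Real.exp_log c0
    have h3 := cls_card_ge h hTi hMle t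
    have c1 : (0 : ℝ) < (cls Q T t).card := by
      exact_mod_cast (cls_nonempty Q ht).card_pos
    have h4 := Real.log_le_log (by positivity) h3
    rw [Real.log_mul c1.ne' hM0.ne', hM, Real.log_exp] at h4
    exact h4
  have h5 : (∑ t ∈ T, (Real.log ((cls Q T t).card : ℝ) +
      (Real.log X.card - (i + 1) * Real.log 2))) / T.card ≤
      (∑ t ∈ T, Real.log ((cls Q X t).card : ℝ)) / T.card :=
    div_le_div_of_nonneg_right (Finset.sum_le_sum key) cT.le
  rw [Finset.sum_add_distrib, Finset.sum_const, nsmul_eq_mul, add_div,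
    mul_div_cancel_left₀ _ cT.ne'] at h5
  unfold ent
  linarith

/-- the entropy is at least the min-entropy -/
theorem ent_ge {Q Q' : ℤ} (h : Q ∣ Q') {X T : Finset ℤ} (hTn : T.Nonempty) (hT : T ⊆ X)
    (hTi : ∀ t ∈ T, ∀ t' ∈ T, Q' ∣ t - t' → t = t') {i : ℕ}
    (h1 : ∀ t ∈ T, Real.log X.card - (i + 1) * Real.log 2 ≤ Real.log (cls Q' X t).card)
    (h2 : i * Real.log 2 - psi i ≤ Real.log T.card) :
    Real.log X.card - Real.log 2 - psi i - Real.log (mx Q X) ≤ ent Q T := by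
  have cT : (0 : ℝ) < T.card := by exact_mod_cast hTn.card_pos
  have h3 := avg_cls_ge h hTn hT hTi h1 h2
  have h4 : (∑ t ∈ T, Real.log ((cls Q X t).card : ℝ)) / T.card ≤ Real.log (mx Q X) := by
    rw [div_le_iff₀ cT]
    calc _ ≤ ∑ _t ∈ T, Real.log (mx Q X) := by
          refine Finset.sum_le_sum fun t ht => ?_
          have c0 : (0 : ℝ) < (cls Q X t).card := by
            exact_mod_cast (cls_nonempty Q (hT ht)).card_pos
          exact Real.log_le_log c0 (by exact_mod_cast le_mx Q (hT ht))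
      _ = _ := by rw [Finset.sum_const, nsmul_eq_mul, mul_comm]
  linarith

theorem ent_nonneg (Q : ℤ) (T : Finset ℤ) : 0 ≤ ent Q T := by
  unfold ent
  rcases T.eq_empty_or_nonempty with rfl | hTn
  · simp
  have cT : (0 : ℝ) < T.card := by exact_mod_cast hTn.card_pos
  have : (∑ t ∈ T, Real.log ((cls Q T t).card : ℝ)) / T.card ≤ Real.log T.card := by
    rw [div_le_iff₀ cT]
    calc _ ≤ ∑ _t ∈ T, Real.log T.card := by
          refine Finset.sum_le_sum fun t ht => ?_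
          have c0 : (0 : ℝ) < (cls Q T t).card := by
            exact_mod_cast (cls_nonempty Q ht).card_pos
          exact Real.log_le_log c0 (by exact_mod_cast Finset.card_le_card (cls_sub Q T t))
      _ = _ := by rw [Finset.sum_const, nsmul_eq_mul, mul_comm]
  linarith

end Pool.Agent.K3h49.Lat
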