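import Pool.Agent.K3h49.Lat.Cases

/-!
Constants and the potential function of the induction for dilates by divisors of a product of
pairwise coprime integers.
-/

set_option autoImplicit false

namespace Pool.Agent.K3h49.Lat

open Finset Pool.Agent.TH83.SQ
open scoped Pointwise Classical

/-- the constants -/
structure Cs (δ R : ℝ) where
  κ : ℕ
  MB : ℕ
  MX : ℕ
  n : ℕ
  j₀ : ℕ
  β : ℝ
  hβ : 0 < β
  hκ1 : 1 ≤ κ
  hR : R ≤ κ * Real.log 2
  hMB : ∀ i : ℕ, MB ≤ i → psi i + κ * Real.log 2 + Real.log 2 ≤ δ * (i * Real.log 2) ∧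
    R ≤ i * Real.log 2
  hMX : ∀ i : ℕ, MX ≤ i → psi i + Real.log 2 + (MB + 1) * Real.log 2 ≤ δ * (i * Real.log 2) ∧
    R ≤ i * Real.log 2
  hE : 2 * Real.log 2 + psi MX + psi MB ≤ δ / 8 * (κ * Real.log 2)
  hn1 : 1 ≤ n
  hn : (MX + MB) * Real.log 2 < (1 + δ / 4) ^ n * (κ * Real.log 2 / 2)
  hβ' : ((2 : ℝ) ^ MX * 2 ^ MB) ^ 2 * β ≤ δ / 4
  gen : ∀ P : Finset ℕ, (∀ q ∈ P, 2 ≤ q) →
    (∀ q ∈ P, ∀ q' ∈ P, q ≠ q' → Nat.Coprime q q') → j₀ ≤ P.card →
    ∃ q ∈ P, ∃ ℓ b : ℕ, ℓ.Prime ∧ 1 ≤ b ∧ ℓ ^ (n * (b - 1) + 1) ∣ q ∧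
      ∀ r : ℤ, (((P.erase q).powerset.filter fun s => ((ℓ : ℤ) ^ b) ∣ pr s - r).card : ℝ) ≤
        β * 2 ^ (P.card - 1)

theorem psi_nonneg (i : ℕ) : 0 ≤ psi i := by
  unfold psi
  refine Real.log_nonneg ?_
  have : (0 : ℝ) ≤ i := Nat.cast_nonneg i
  nlinarith

theorem psi_mono {i j : ℕ} (h : i ≤ j) : psi i ≤ psi j := by
  unfold psi
  have h1 : (i : ℝ) ≤ j := by exact_mod_cast h
  have h0 : (0 : ℝ) ≤ i := Nat.cast_nonneg i
  refine Real.log_le_log (by positivity) ?_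
  nlinarith

theorem exists_cs (hG : GenStm) (δ R : ℝ) (hδ : 0 < δ) : Nonempty (Cs δ R) := by
  have hl : 0 < Real.log 2 := Real.log_pos (by norm_num)
  obtain ⟨D, hD0, hD⟩ := psi_le (δ / 2 * Real.log 2) (by positivity)
  -- `MB = c κ`
  obtain ⟨c, hc⟩ := exists_nat_ge (max ((D + 2 * Real.log 2) / (δ / 2 * Real.log 2))
    (R / Real.log 2))
  have hc1 : D + 2 * Real.log 2 ≤ δ / 2 * Real.log 2 * c := by
    have := (le_max_left _ _).trans hc
    rw [div_le_iff₀ (by positivity)] at this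
    linarith
  have hc2 : R ≤ c * Real.log 2 := by
    have := (le_max_right _ _).trans hc
    rw [div_le_iff₀ (by positivity)] at this
    linarith
  -- `MX = c' κ`
  obtain ⟨c', hc'⟩ := exists_nat_ge (max ((D + (c + 2) * Real.log 2) / (δ / 2 * Real.log 2))
    (R / Real.log 2))
  have hc'1 : D + (c + 2) * Real.log 2 ≤ δ / 2 * Real.log 2 * c' := by
    have := (le_max_left _ _).trans hc'
    rw [div_le_iff₀ (by positivity)] at this
    linarith
  have hc'2 : R ≤ c' * Real.log 2 := by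
    have := (le_max_right _ _).trans hc'
    rw [div_le_iff₀ (by positivity)] at this
    linarith
  -- the choice of `κ`
  set a : ℝ := δ / 16 * Real.log 2 / (c + c' + 1) with ha
  have ha0 : 0 < a := by positivity
  obtain ⟨D', hD'0, hD'⟩ := psi_le a ha0
  obtain ⟨κ, hκ⟩ := exists_nat_ge (max (max 1 (R / Real.log 2))
    ((2 * Real.log 2 + 2 * D') / (δ / 16 * Real.log 2)))
  have hκ1 : (1 : ℝ) ≤ κ := (le_max_left _ _).trans ((le_max_left _ _).trans hκ)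
  have hκ2 : R ≤ κ * Real.log 2 := by
    have := (le_max_right _ _).trans ((le_max_left _ _).trans hκ)
    rwa [div_le_iff₀ (by positivity)] at this
  have hκ3 : 2 * Real.log 2 + 2 * D' ≤ κ * (δ / 16 * Real.log 2) := by
    have := (le_max_right _ _).trans hκ
    rwa [div_le_iff₀ (by positivity)] at this
  have hMB : ∀ i : ℕ, c * κ ≤ i → psi i + κ * Real.log 2 + Real.log 2 ≤ δ * (i * Real.log 2) ∧
      R ≤ i * Real.log 2 := by
    intro i hi
    have hi' : (c : ℝ) * κ ≤ i := by exact_mod_cast hi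
    have h1 := hD i
    have h2 : (D + 2 * Real.log 2) * κ ≤ δ / 2 * Real.log 2 * i := by
      calc (D + 2 * Real.log 2) * κ ≤ (δ / 2 * Real.log 2 * c) * κ :=
            mul_le_mul_of_nonneg_right hc1 (by positivity)
        _ = δ / 2 * Real.log 2 * (c * κ) := by ring
        _ ≤ _ := mul_le_mul_of_nonneg_left hi' (by positivity)
    constructor
    · nlinarith [mul_nonneg hD0 (by linarith : (0 : ℝ) ≤ κ - 1),
        mul_nonneg hl.le (by linarith : (0 : ℝ) ≤ κ - 1)]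
    · have h3 : (c : ℝ) ≤ i := by
        have : (c : ℝ) * 1 ≤ c * κ := mul_le_mul_of_nonneg_left hκ1 (Nat.cast_nonneg _)
        linarith
      exact hc2.trans (mul_le_mul_of_nonneg_right h3 hl.le)
  have hMX : ∀ i : ℕ, c' * κ ≤ i → psi i + Real.log 2 + (((c * κ : ℕ) : ℝ) + 1) * Real.log 2 ≤
      δ * (i * Real.log 2) ∧ R ≤ i * Real.log 2 := by
    intro i hi
    have hi' : (c' : ℝ) * κ ≤ i := by exact_mod_cast hi
    have h1 := hD i
    have h2 : (D + (c + 2) * Real.log 2) * κ ≤ δ / 2 * Real.log 2 * i := by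
      calc (D + (c + 2) * Real.log 2) * κ ≤ (δ / 2 * Real.log 2 * c') * κ :=
            mul_le_mul_of_nonneg_right hc'1 (by positivity)
        _ = δ / 2 * Real.log 2 * (c' * κ) := by ring
        _ ≤ _ := mul_le_mul_of_nonneg_left hi' (by positivity)
    constructor
    · push_cast
      nlinarith [mul_nonneg hD0 (by linarith : (0 : ℝ) ≤ κ - 1),
        mul_nonneg hl.le (by linarith : (0 : ℝ) ≤ κ - 1)]
    · have h3 : (c' : ℝ) ≤ i := by
        have : (c' : ℝ) * 1 ≤ c' * κ := mul_le_mul_of_nonneg_left hκ1 (Nat.cast_nonneg _)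
        linarith
      exact hc'2.trans (mul_le_mul_of_nonneg_right h3 hl.le)
  have hE : 2 * Real.log 2 + psi (c' * κ) + psi (c * κ) ≤ δ / 8 * (κ * Real.log 2) := by
    have h1 := hD' (c' * κ)
    have h2 := hD' (c * κ)
    push_cast at h1 h2
    have h3 : a * (c' * κ) + a * (c * κ) ≤ δ / 16 * Real.log 2 * κ := by
      have e : a * (c' * κ) + a * (c * κ) = a * (c + c') * κ := by ring
      rw [e]
      refine mul_le_mul_of_nonneg_right ?_ (by positivity)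
      rw [ha, div_mul_eq_mul_div, div_le_iff₀ (by positivity)]
      refine mul_le_mul_of_nonneg_left ?_ (by positivity)
      linarith
    linarith
  -- the choice of `n`
  obtain ⟨n, hn⟩ : ∃ n : ℕ, (((c' * κ : ℕ) : ℝ) + ((c * κ : ℕ) : ℝ)) * Real.log 2 /
      (κ * Real.log 2 / 2) < (1 + δ / 4) ^ n := by
    exact pow_unbounded_of_one_lt _ (by linarith)
  have hn' : (((c' * κ : ℕ) : ℝ) + ((c * κ : ℕ) : ℝ)) * Real.log 2 <
      (1 + δ / 4) ^ (n + 1) * (κ * Real.log 2 / 2) := by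
    rw [div_lt_iff₀ (by positivity)] at hn
    refine hn.trans_le (mul_le_mul_of_nonneg_right ?_ (by positivity))
    exact pow_le_pow_right₀ (by linarith) (Nat.le_succ n)
  set β : ℝ := δ / 4 / ((2 : ℝ) ^ (c' * κ) * 2 ^ (c * κ)) ^ 2 with hβ
  have hβ0 : 0 < β := by positivity
  obtain ⟨m₀, hm₀⟩ := hG (n + 1) (by omega) β hβ0
  refine ⟨⟨κ, c * κ, c' * κ, n + 1, m₀, β, hβ0, by exact_mod_cast hκ1, hκ2, hMB, hMX, hE,
    by omega, hn', ?_, hm₀⟩⟩
  rw [hβ]
  field_simp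
  exact le_rfl

/-- the lower bound for `tau` -/
noncomputable def bnd (δ R Λ : ℝ) (j₀ j : ℕ) (S : ℝ) : ℝ :=
  (1 - δ) * S - Λ - (R / 2) * Real.exp ((j₀ : ℝ) / 2) * Real.exp (2 / R * S - (j : ℝ) / 2)

theorem bnd_small {δ R Λ : ℝ} (hδ : 0 < δ) (hR : 0 < R) (hΛ : 0 ≤ Λ) {j₀ j : ℕ} (hj : j ≤ j₀)
    {S : ℝ} (hS : 0 ≤ S) : bnd δ R Λ j₀ j S ≤ 0 := by
  unfold bnd
  have h2 : S ≤ (R / 2) * Real.exp ((j₀ : ℝ) / 2) * Real.exp (2 / R * S - (j : ℝ) / 2) := by
    rw [mul_assoc, ← Real.exp_add]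
    have h3 : 2 / R * S ≤ Real.exp ((j₀ : ℝ) / 2 + (2 / R * S - (j : ℝ) / 2)) := by
      have h4 : (j : ℝ) ≤ j₀ := by exact_mod_cast hj
      have h5 := Real.add_one_le_exp ((j₀ : ℝ) / 2 + (2 / R * S - (j : ℝ) / 2))
      linarith
    calc S = (R / 2) * (2 / R * S) := by field_simp
      _ ≤ _ := mul_le_mul_of_nonneg_left h3 (by positivity)
  have h3 : 0 ≤ δ * S := by positivity
  nlinarith

theorem bnd_low {δ R Λ : ℝ} (hδ : 0 < δ) (hR : 0 < R) {j₀ j : ℕ}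
    {S : ℝ} (hS0 : 0 ≤ S) (hS : S ≤ Λ) : bnd δ R Λ j₀ j S ≤ 0 := by
  unfold bnd
  have h2 : 0 ≤ (R / 2) * Real.exp ((j₀ : ℝ) / 2) * Real.exp (2 / R * S - (j : ℝ) / 2) := by
    positivity
  have h3 : 0 ≤ δ * S := by positivity
  nlinarith

/-- combination of the two halves -/
theorem bnd_comb {δ R Λ : ℝ} (hR : 0 < R) {j₀ j : ℕ} {S a b : ℝ}
    (ha : bnd δ R Λ j₀ j S ≤ a) (hb : (1 - δ) * R + bnd δ R Λ j₀ j (S - R) ≤ b) :
    bnd δ R Λ j₀ (j + 1) S ≤ (a + b) / 2 := by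
  unfold bnd at *
  set A := (R / 2) * Real.exp ((j₀ : ℝ) / 2) with hA
  have hA0 : 0 ≤ A := by positivity
  have h1 : Real.exp (2 / R * (S - R) - (j : ℝ) / 2) ≤
      Real.exp (-2) * Real.exp (2 / R * S - (j : ℝ) / 2) := by
    rw [← Real.exp_add]
    apply Real.exp_le_exp.2
    have h3 : 2 / R * (S - R) = 2 / R * S - 2 := by field_simp
    linarith
  have h2 : Real.exp (2 / R * S - ((j + 1 : ℕ) : ℝ) / 2) =
      Real.exp (-(1 / 2)) * Real.exp (2 / R * S - (j : ℝ) / 2) := by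
    rw [← Real.exp_add]
    congr 1
    push_cast; ring
  rw [h2]
  have h3 := exp_num
  set E := Real.exp (2 / R * S - (j : ℝ) / 2) with hE
  have hE0 : 0 < E := Real.exp_pos _
  have h4 : A * Real.exp (2 / R * (S - R) - (j : ℝ) / 2) ≤ A * (Real.exp (-2) * E) :=
    mul_le_mul_of_nonneg_left h1 hA0
  have h5 : A * E * ((1 + Real.exp (-2)) / 2) ≤ A * E * Real.exp (-(1 / 2)) :=
    mul_le_mul_of_nonneg_left h3 (by positivity)
  nlinarith

/-- averaging the bound over the pieces -/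
theorem bnd_avg {ι : Type*} {W : Finset ι} (hW : W.Nonempty) {δ R Λ : ℝ} (hR : 0 < R)
    {j₀ j : ℕ} {S G : ℝ} (f S' : ι → ℝ)
    (h1 : ∀ w ∈ W, bnd δ R Λ j₀ j (S' w) ≤ f w) (h2 : ∀ w ∈ W, S' w ≤ S - R)
    (h3 : (1 - δ) * S ≤ G + (1 - δ) * ((∑ w ∈ W, S' w) / W.card)) :
    (1 - δ) * R + bnd δ R Λ j₀ j (S - R) ≤ G + (∑ w ∈ W, f w) / W.card := by
  have cW : (0 : ℝ) < W.card := by exact_mod_cast hW.card_pos
  set A := (R / 2) * Real.exp ((j₀ : ℝ) / 2) with hA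
  have hA0 : 0 ≤ A := by positivity
  set E := Real.exp (2 / R * (S - R) - (j : ℝ) / 2) with hE
  have h4 : ∀ w ∈ W, (1 - δ) * S' w - Λ - A * E ≤ f w := by
    intro w hw
    refine le_trans ?_ (h1 w hw)
    unfold bnd
    rw [← hA]
    have h5 : Real.exp (2 / R * S' w - (j : ℝ) / 2) ≤ E := by
      apply Real.exp_le_exp.2
      have := mul_le_mul_of_nonneg_left (h2 w hw) (by positivity : 0 ≤ 2 / R)
      linarith
    have h6 := mul_le_mul_of_nonneg_left h5 hA0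
    linarith
  have h5 : (∑ w ∈ W, ((1 - δ) * S' w - Λ - A * E)) / W.card ≤ (∑ w ∈ W, f w) / W.card :=
    div_le_div_of_nonneg_right (Finset.sum_le_sum h4) cW.le
  have h6 : (∑ w ∈ W, ((1 - δ) * S' w - Λ - A * E)) / W.card =
      (1 - δ) * ((∑ w ∈ W, S' w) / W.card) - Λ - A * E := by
    rw [Finset.sum_sub_distrib, Finset.sum_sub_distrib, Finset.sum_const, Finset.sum_const,
      ← Finset.mul_sum]
    rw [nsmul_eq_mul, nsmul_eq_mul]
    field_simp
  rw [h6] at h5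
  unfold bnd
  rw [← hA, ← hE]
  linarith

/-- pigeonhole for a slowly growing sequence -/
theorem pigeon {e : ℕ → ℝ} {n : ℕ} {x a : ℝ} (hx : 0 ≤ 1 + x) (h0 : a ≤ e 0)
    (hn : e n < (1 + x) ^ n * a) : ∃ k, k < n ∧ e (k + 1) ≤ (1 + x) * e k := by
  by_contra hcon
  push Not at hcon
  have h : ∀ k, k ≤ n → (1 + x) ^ k * a ≤ e k := by
    intro k
    induction k with
    | zero => intro _; simpa using h0
    | succ k ih =>
      intro hk
      have h1 := ih (by omega)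
      have h2 := hcon k (by omega)
      have h3 := mul_le_mul_of_nonneg_left h1 hx
      rw [pow_succ]
      nlinarith
  exact absurd (h n le_rfl) (not_le.2 hn)

/-- cancelling in a divisibility by a prime power -/
theorem pow_dvd_cancel {ℓ : ℕ} (hℓ : ℓ.Prime) {c e : ℕ} {x d : ℤ}
    (h1 : ((ℓ : ℤ) ^ (c + e)) ∣ x * d) (h2 : ¬ ((ℓ : ℤ) ^ c) ∣ d) : ((ℓ : ℤ) ^ (e + 1)) ∣ x := by
  have hp : Prime (ℓ : ℤ) := Nat.prime_iff_prime_int.1 hℓ
  have hd0 : d ≠ 0 := by rintro rfl; exact h2 (dvd_zero _)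
  have hfin : FiniteMultiplicity (ℓ : ℤ) d := by
    rw [Int.finiteMultiplicity_iff]
    refine ⟨?_, hd0⟩
    rw [Int.natAbs_natCast]
    exact hℓ.one_lt.ne'
  obtain ⟨d', hd', hnd⟩ := hfin.exists_eq_pow_mul_and_not_dvd
  set k := multiplicity (ℓ : ℤ) d with hk
  have hkc : k < c := by
    by_contra hcon
    push Not at hcon
    apply h2
    rw [hd']
    exact (pow_dvd_pow _ hcon).mul_right _
  have h3 : ((ℓ : ℤ) ^ (c + e - k)) ∣ x * d' := by
    have h4 : (ℓ : ℤ) ^ k * (ℓ : ℤ) ^ (c + e - k) ∣ (ℓ : ℤ) ^ k * (x * d') := by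
      rw [← pow_add, Nat.add_sub_cancel' (by omega)]
      have : (ℓ : ℤ) ^ k * (x * d') = x * d := by rw [hd']; ring
      rw [this]
      exact h1
    exact (mul_dvd_mul_iff_left (pow_ne_zero _ hp.ne_zero)).1 h4
  have h5 := hp.pow_dvd_of_dvd_mul_right _ hnd h3
  exact (pow_dvd_pow _ (by omega)).trans h5

end Pool.Agent.K3h49.Lat
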