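import Pool.Agent.K3h49.Lat.Consts
import Pool.Agent.TH83.SQ.DilMain

/-!
Sums with dilates by the divisors of a product of pairwise coprime integers: the induction.
-/

set_option autoImplicit false

namespace Pool.Agent.K3h49.Lat

open Finset Pool.Agent.TH83.SQ
open scoped Pointwise Classical

theorem pr_coprime {P : Finset ℕ} {q ℓ : ℕ} (hq : q ∈ P)
    (hco : ∀ q ∈ P, ∀ q' ∈ P, q ≠ q' → Nat.Coprime q q') (hdvd : ℓ ∣ q) {s : Finset ℕ}
    (hs : s ⊆ P.erase q) (e : ℕ) : IsCoprime ((ℓ : ℤ) ^ e) (pr s) := by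
  refine IsCoprime.pow_left ?_
  unfold pr
  refine IsCoprime.prod_right fun q' hq' => ?_
  rw [Nat.isCoprime_iff_coprime]
  have h1 := Finset.mem_erase.1 (hs hq')
  exact Nat.Coprime.coprime_dvd_left hdvd (hco q hq q' h1.2 (Ne.symm h1.1))

/-- The first case: the second summand has many residues. -/
theorem caseB {δ R : ℝ} (hδ : 0 < δ) (hδ1 : δ < 1) (hR : 0 < R) (c : Cs δ R) {m : ℕ}
    {P' : Finset ℕ} {q : ℕ} (hq0 : q ≠ 0)
    (ih : ∀ X B : Finset ℤ, X.Nonempty → B.Nonempty →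
      bnd δ R (c.κ * Real.log 2) c.j₀ m (Sz X B) ≤ tau P' X B)
    {X B : Finset ℤ} {Q Q' : ℤ} (hQ : Q' ∣ q * Q)
    {x₀ : ℤ} (hx₀ : x₀ ∈ X)
    (hheavy : Real.log X.card ≤ Real.log (cls Q X x₀).card + c.κ * Real.log 2)
    {U : Finset ℤ} (hU : U ⊆ B) (hUn : U.Nonempty)
    (hUi : ∀ t ∈ U, ∀ t' ∈ U, Q' ∣ t - t' → t = t') {i : ℕ} (hi : c.MB ≤ i)
    (hUl : ∀ t ∈ U, Real.log B.card - (i + 1) * Real.log 2 ≤ Real.log (cls Q' B t).card ∧
      Real.log (cls Q' B t).card ≤ Real.log B.card - i * Real.log 2)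
    (hUk : i * Real.log 2 - psi i ≤ Real.log U.card) :
    (1 - δ) * R + bnd δ R (c.κ * Real.log 2) c.j₀ m (Sz X B - R) ≤ tau P' (dil q X) B := by
  have hl : 0 < Real.log 2 := Real.log_pos (by norm_num)
  obtain ⟨hB1, hB2⟩ := c.hMB i hi
  have hcI := gI hQ P' X B x₀ hx₀ U hU hUn hUi
  refine le_trans ?_ hcI
  have hn1 : (cls Q X x₀).Nonempty := cls_nonempty _ hx₀
  have hp0 : (q : ℤ) ≠ 0 := by exact_mod_cast hq0
  have cc : (0 : ℝ) < (cls Q X x₀).card := by exact_mod_cast hn1.card_pos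
  have h6 : Real.log (cls Q X x₀).card ≤ Real.log X.card :=
    Real.log_le_log cc (by exact_mod_cast Finset.card_le_card (cls_sub _ _ _))
  have h5 : ∀ t, Sz (dil q (cls Q X x₀)) (cls Q' B t) =
      Real.log (cls Q X x₀).card + Real.log (cls Q' B t).card := by
    intro t
    unfold Sz
    rw [card_dil hp0]
  refine bnd_avg hUn hR _ (fun t => Sz (dil q (cls Q X x₀)) (cls Q' B t)) ?_ ?_ ?_
  · intro t ht
    exact ih _ _ (dil_nonempty hn1) (cls_nonempty _ (hU ht))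
  · intro t ht
    have h7 := (hUl t ht).2
    simp only [h5]
    unfold Sz
    linarith
  · have hδ' : 0 ≤ 1 - δ := by linarith
    have h7 : Real.log X.card - c.κ * Real.log 2 + (Real.log B.card - (i + 1) * Real.log 2) ≤
        (∑ t ∈ U, Sz (dil q (cls Q X x₀)) (cls Q' B t)) / U.card := by
      refine avg_ge hUn fun t ht => ?_
      have h8 := (hUl t ht).1
      rw [h5]
      linarith
    have h8 := mul_le_mul_of_nonneg_left h7 hδ'
    have hk : 0 ≤ δ * (c.κ * Real.log 2 + Real.log 2) := by positivity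
    unfold Sz
    unfold Sz at h8
    nlinarith

/-- The second case: the first summand has many residues. -/
theorem caseX {δ R : ℝ} (hδ : 0 < δ) (hδ1 : δ < 1) (hR : 0 < R) (c : Cs δ R) {m : ℕ}
    {P' : Finset ℕ}
    (ih : ∀ X B : Finset ℤ, X.Nonempty → B.Nonempty →
      bnd δ R (c.κ * Real.log 2) c.j₀ m (Sz X B) ≤ tau P' X B)
    {X B : Finset ℤ} {Q' : ℤ} (hP : ∀ s ⊆ P', IsCoprime Q' (pr s))
    {T : Finset ℤ} (hT : T ⊆ X) (hTn : T.Nonempty)
    (hTi : ∀ t ∈ T, ∀ t' ∈ T, Q' ∣ t - t' → t = t') {i : ℕ} (hi : c.MX ≤ i)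
    (hTl : ∀ t ∈ T, Real.log X.card - (i + 1) * Real.log 2 ≤ Real.log (cls Q' X t).card ∧
      Real.log (cls Q' X t).card ≤ Real.log X.card - i * Real.log 2)
    (hTk : i * Real.log 2 - psi i ≤ Real.log T.card)
    {b₀ : ℤ} (hb₀ : b₀ ∈ B) {i' : ℕ} (hi' : i' < c.MB)
    (hb₀l : Real.log B.card - (i' + 1) * Real.log 2 ≤ Real.log (cls Q' B b₀).card) :
    (1 - δ) * R + bnd δ R (c.κ * Real.log 2) c.j₀ m (Sz X B - R) ≤ tau P' X B := by
  have hl : 0 < Real.log 2 := Real.log_pos (by norm_num)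
  obtain ⟨hX1, hX2⟩ := c.hMX i hi
  have hcI := gIIa P' hP X B T hT hTn hTi b₀ hb₀
  refine le_trans ?_ hcI
  have cb : (0 : ℝ) < (cls Q' B b₀).card := by exact_mod_cast (cls_nonempty Q' hb₀).card_pos
  have h6 : Real.log (cls Q' B b₀).card ≤ Real.log B.card :=
    Real.log_le_log cb (by exact_mod_cast Finset.card_le_card (cls_sub _ _ _))
  have hi'' : (i' : ℝ) + 1 ≤ c.MB := by exact_mod_cast hi'
  refine bnd_avg hTn hR _ (fun t => Sz (cls Q' X t) (cls Q' B b₀)) ?_ ?_ ?_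
  · intro t ht
    exact ih _ _ (cls_nonempty _ (hT ht)) (cls_nonempty _ hb₀)
  · intro t ht
    have h7 := (hTl t ht).2
    unfold Sz
    linarith
  · have hδ' : 0 ≤ 1 - δ := by linarith
    have h7 : Real.log X.card - (i + 1) * Real.log 2 +
        (Real.log B.card - c.MB * Real.log 2) ≤
        (∑ t ∈ T, Sz (cls Q' X t) (cls Q' B b₀)) / T.card := by
      refine avg_ge hTn fun t ht => ?_
      have h8 := (hTl t ht).1
      have h9 : (i' + 1) * Real.log 2 ≤ c.MB * Real.log 2 :=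
        mul_le_mul_of_nonneg_right hi'' hl.le
      unfold Sz
      linarith
    have h8 := mul_le_mul_of_nonneg_left h7 hδ'
    have hk : 0 ≤ δ * (((c.MB : ℝ) + 1) * Real.log 2) := by positivity
    unfold Sz
    unfold Sz at h8
    nlinarith

/-- The third case: both summands have boundedly many residues. -/
theorem caseM (hM : MixStm) {δ R : ℝ} (hδ : 0 < δ) (hδ1 : δ < 1) (hR : 0 < R) (c : Cs δ R)
    {m : ℕ} {P' : Finset ℕ} {ℓ b : ℕ} (hℓ : ℓ.Prime) (hb : 1 ≤ b)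
    (hgen : ∀ r : ℤ, ((P'.powerset.filter fun s => ((ℓ : ℤ) ^ b) ∣ pr s - r).card : ℝ) ≤
        c.β * 2 ^ P'.card)
    (ih : ∀ X B : Finset ℤ, X.Nonempty → B.Nonempty →
      bnd δ R (c.κ * Real.log 2) c.j₀ m (Sz X B) ≤ tau P' X B)
    {X B : Finset ℤ} {I : ℕ}
    (hI : Real.log (mx ((ℓ : ℤ) ^ (I + 1)) X) + Real.log (mx ((ℓ : ℤ) ^ (I + 1)) B) +
      c.κ * Real.log 2 ≤ Sz X B)
    {T : Finset ℤ} (hT : T ⊆ X) (hTn : T.Nonempty)
    (hTi : ∀ t ∈ T, ∀ t' ∈ T, ((ℓ : ℤ) ^ (I + 1 + c.n * (b - 1))) ∣ t - t' → t = t') {i : ℕ}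
    (hi : i < c.MX)
    (hTl : ∀ t ∈ T, Real.log X.card - (i + 1) * Real.log 2 ≤
      Real.log (cls ((ℓ : ℤ) ^ (I + 1 + c.n * (b - 1))) X t).card)
    (hTk : i * Real.log 2 - psi i ≤ Real.log T.card) (hTc : T.card ≤ 2 ^ (i + 1))
    {U : Finset ℤ} (hU : U ⊆ B) (hUn : U.Nonempty)
    (hUi : ∀ t ∈ U, ∀ t' ∈ U, ((ℓ : ℤ) ^ (I + 1 + c.n * (b - 1))) ∣ t - t' → t = t') {i' : ℕ}
    (hi' : i' < c.MB)
    (hUl : ∀ t ∈ U, Real.log B.card - (i' + 1) * Real.log 2 ≤
      Real.log (cls ((ℓ : ℤ) ^ (I + 1 + c.n * (b - 1))) B t).card)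
    (hUk : i' * Real.log 2 - psi i' ≤ Real.log U.card) (hUc : U.card ≤ 2 ^ (i' + 1)) :
    (1 - δ) * R + bnd δ R (c.κ * Real.log 2) c.j₀ m (Sz X B - R) ≤ tau P' X B := by
  have hl : 0 < Real.log 2 := Real.log_pos (by norm_num)
  have cT : (0 : ℝ) < T.card := by exact_mod_cast hTn.card_pos
  have cU : (0 : ℝ) < U.card := by exact_mod_cast hUn.card_pos
  set Λ : ℝ := c.κ * Real.log 2 with hΛ
  have hΛ0 : 0 < Λ := by
    have h : (1 : ℝ) ≤ c.κ := by exact_mod_cast c.hκ1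
    rw [hΛ]; positivity
  set Qk : ℕ → ℤ := fun k => (ℓ : ℤ) ^ (I + 1 + k * (b - 1)) with hQk
  have hQ : ∀ k, k ≤ c.n → Qk k ∣ (ℓ : ℤ) ^ (I + 1 + c.n * (b - 1)) := by
    intro k hk
    exact pow_dvd_pow _ (Nat.add_le_add_left (Nat.mul_le_mul_right _ hk) _)
  have hpsi1 : psi i ≤ psi c.MX := psi_mono hi.le
  have hpsi2 : psi i' ≤ psi c.MB := psi_mono hi'.le
  -- the entropies
  set e : ℕ → ℝ := fun k => ent (Qk k) T + ent (Qk k) U with he
  have he0 : Λ / 2 ≤ e 0 := by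
    have h1 := ent_ge (hQ 0 (Nat.zero_le _)) hTn hT hTi hTl hTk
    have h2 := ent_ge (hQ 0 (Nat.zero_le _)) hUn hU hUi hUl hUk
    have h3 : Qk 0 = (ℓ : ℤ) ^ (I + 1) := by simp [hQk]
    rw [h3] at h1 h2
    have h4 : e 0 = ent ((ℓ : ℤ) ^ (I + 1)) T + ent ((ℓ : ℤ) ^ (I + 1)) U := by
      simp only [he]; rw [h3]
    have h5 := c.hE
    have h6 : δ / 8 * Λ ≤ 1 / 8 * Λ := mul_le_mul_of_nonneg_right (by linarith) hΛ0.le
    unfold Sz at hI
    rw [h4]
    linarith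
  have hen : e c.n < (1 + δ / 4) ^ c.n * (Λ / 2) := by
    refine lt_of_le_of_lt ?_ c.hn
    have h1 := ent_le (Qk c.n) T
    have h2 := ent_le (Qk c.n) U
    have h3 : Real.log T.card ≤ c.MX * Real.log 2 := by
      have h4 : (T.card : ℝ) ≤ 2 ^ c.MX := by
        have : T.card ≤ 2 ^ c.MX := hTc.trans (Nat.pow_le_pow_right (by norm_num) hi)
        exact_mod_cast this
      calc _ ≤ Real.log (2 ^ c.MX) := Real.log_le_log cT h4
        _ = _ := by rw [Real.log_pow]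
    have h4 : Real.log U.card ≤ c.MB * Real.log 2 := by
      have h4 : (U.card : ℝ) ≤ 2 ^ c.MB := by
        have : U.card ≤ 2 ^ c.MB := hUc.trans (Nat.pow_le_pow_right (by norm_num) hi')
        exact_mod_cast this
      calc _ ≤ Real.log (2 ^ c.MB) := Real.log_le_log cU h4
        _ = _ := by rw [Real.log_pow]
    simp only [he]
    rw [add_mul]
    linarith
  obtain ⟨k, hk, hek⟩ := pigeon (by linarith : (0 : ℝ) ≤ 1 + δ / 4) he0 hen
  -- monotonicity of the entropy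
  have hmono : ∀ k, Λ / 2 ≤ e k := by
    intro k
    refine he0.trans ?_
    have hent : ∀ T : Finset ℤ, ent (Qk 0) T ≤ ent (Qk k) T := by
      intro T
      unfold ent
      have : (∑ t ∈ T, Real.log ((cls (Qk k) T t).card : ℝ)) / T.card ≤
          (∑ t ∈ T, Real.log ((cls (Qk 0) T t).card : ℝ)) / T.card := by
        refine div_le_div_of_nonneg_right (Finset.sum_le_sum fun t ht => ?_) (Nat.cast_nonneg _)
        refine Real.log_le_log ?_ ?_
        · exact_mod_cast (cls_nonempty _ ht).card_pos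
        · exact_mod_cast Finset.card_le_card (cls_mono
            (pow_dvd_pow _ (Nat.add_le_add_left (Nat.mul_le_mul_right _ (Nat.zero_le k)) _)) T t)
      linarith
    simp only [he]
    exact add_le_add (hent T) (hent U)
  have hek0 := hmono k
  -- the generic step
  have hmix := hM P' X B (Qk k) (Qk (k + 1))
    (pow_dvd_pow _ (Nat.add_le_add_left (Nat.mul_le_mul_right _ (Nat.le_succ k)) _))
    T U hT hTn hU hUn c.β c.hβ.le (by
      intro t _ t' _ hnd r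
      rcases (P'.powerset.filter fun s => Qk (k + 1) ∣ pr s * (t - t') + r).eq_empty_or_nonempty
        with h0 | ⟨s0, hs0⟩
      · rw [h0]
        have := c.hβ
        simp only [Finset.card_empty, Nat.cast_zero]
        positivity
      · refine le_trans ?_ (hgen (pr s0))
        have : (P'.powerset.filter fun s => Qk (k + 1) ∣ pr s * (t - t') + r) ⊆
            P'.powerset.filter fun s => ((ℓ : ℤ) ^ b) ∣ pr s - pr s0 := by
          intro s hs
          rw [Finset.mem_filter] at hs hs0 ⊢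
          refine ⟨hs.1, ?_⟩
          have h1 := dvd_sub hs.2 hs0.2
          have h2 : pr s * (t - t') + r - (pr s0 * (t - t') + r) =
              (pr s - pr s0) * (t - t') := by ring
          rw [h2] at h1
          have h3 : (b - 1) + 1 = b := by omega
          rw [← h3]
          refine pow_dvd_cancel hℓ (c := I + 1 + k * (b - 1)) ?_ hnd
          have h4 : I + 1 + k * (b - 1) + (b - 1) = I + 1 + (k + 1) * (b - 1) := by ring
          rw [h4]
          exact h1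
        exact_mod_cast Finset.card_le_card this)
  refine le_trans ?_ hmix
  set β' : ℝ := ((T.card : ℝ) * U.card) ^ 2 * c.β with hβ'
  have hβ'1 : β' ≤ δ / 4 := by
    refine le_trans ?_ c.hβ'
    rw [hβ']
    refine mul_le_mul_of_nonneg_right ?_ c.hβ.le
    have h4 : (T.card : ℝ) ≤ 2 ^ c.MX := by
      have : T.card ≤ 2 ^ c.MX := hTc.trans (Nat.pow_le_pow_right (by norm_num) hi)
      exact_mod_cast this
    have h5 : (U.card : ℝ) ≤ 2 ^ c.MB := by
      have : U.card ≤ 2 ^ c.MB := hUc.trans (Nat.pow_le_pow_right (by norm_num) hi')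
      exact_mod_cast this
    exact pow_le_pow_left₀ (by positivity) (mul_le_mul h4 h5 cU.le (by positivity)) 2
  -- the sum over the product
  have hdbl : ∀ g : ℤ → ℤ → ℝ, (∑ t ∈ T, ∑ v ∈ U, g t v) / ((T.card : ℝ) * U.card) =
      (∑ w ∈ T ×ˢ U, g w.1 w.2) / (((T ×ˢ U).card : ℕ) : ℝ) := by
    intro g
    rw [Finset.sum_product, Finset.card_product]
    push_cast
    rfl
  rw [hdbl]
  have hWn : (T ×ˢ U).Nonempty := hTn.product hUn
  refine bnd_avg hWn hR _ (fun w => Sz (cls (Qk (k + 1)) X w.1) (cls (Qk (k + 1)) B w.2))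
    ?_ ?_ ?_
  · intro w hw
    rw [Finset.mem_product] at hw
    exact ih _ _ (cls_nonempty _ (hT hw.1)) (cls_nonempty _ (hU hw.2))
  · intro w hw
    rw [Finset.mem_product] at hw
    have hle : ∀ {Z : Finset ℤ} {z : ℤ}, z ∈ Z → Real.log (cls (Qk (k + 1)) Z z).card ≤
        Real.log (mx ((ℓ : ℤ) ^ (I + 1)) Z) := by
      intro Z z hz
      refine Real.log_le_log ?_ ?_
      · exact_mod_cast (cls_nonempty _ hz).card_pos
      · have h1 := Finset.card_le_card (cls_mono (Q := (ℓ : ℤ) ^ (I + 1)) (Q' := Qk (k + 1))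
          (pow_dvd_pow _ (Nat.le_add_right _ _)) Z z)
        exact_mod_cast h1.trans (le_mx _ hz)
    have h1 := hle (hT hw.1)
    have h2 := hle (hU hw.2)
    have h3 := c.hR
    show Sz (cls (Qk (k + 1)) X w.1) (cls (Qk (k + 1)) B w.2) ≤ Sz X B - R
    have h4 : Sz (cls (Qk (k + 1)) X w.1) (cls (Qk (k + 1)) B w.2) =
        Real.log (cls (Qk (k + 1)) X w.1).card + Real.log (cls (Qk (k + 1)) B w.2).card := rfl
    rw [h4]
    linarith
  · have h1 := avg_cls_ge (hQ (k + 1) hk) hTn hT hTi hTl hTk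
    have h2 := avg_cls_ge (hQ (k + 1) hk) hUn hU hUi hUl hUk
    have h3 : (∑ w ∈ T ×ˢ U, Sz (cls (Qk (k + 1)) X w.1) (cls (Qk (k + 1)) B w.2)) /
        (((T ×ˢ U).card : ℕ) : ℝ) =
        (∑ t ∈ T, Real.log ((cls (Qk (k + 1)) X t).card : ℝ)) / T.card +
        (∑ v ∈ U, Real.log ((cls (Qk (k + 1)) B v).card : ℝ)) / U.card := by
      rw [← hdbl (fun t v => Sz (cls (Qk (k + 1)) X t) (cls (Qk (k + 1)) B v))]
      unfold Sz
      simp only [Finset.sum_add_distrib, Finset.sum_const, nsmul_eq_mul]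
      rw [← Finset.mul_sum]
      field_simp
    rw [h3]
    have h4 : Sz X B - (2 * Real.log 2 + psi c.MX + psi c.MB) - e (k + 1) ≤
        (∑ t ∈ T, Real.log ((cls (Qk (k + 1)) X t).card : ℝ)) / T.card +
        (∑ v ∈ U, Real.log ((cls (Qk (k + 1)) B v).card : ℝ)) / U.card := by
      unfold Sz
      simp only [he]
      linarith
    have hδ' : 0 ≤ 1 - δ := by linarith
    have h5 := mul_le_mul_of_nonneg_left h4 hδ'
    have h6 := c.hE
    have h7 : Sz X B - (δ / 4 * e k) - (1 + δ / 4) * e k ≤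
        Sz X B - (2 * Real.log 2 + psi c.MX + psi c.MB) - e (k + 1) := by
      have h8 : δ / 8 * Λ ≤ δ / 4 * e k := by nlinarith
      linarith
    have h8 := mul_le_mul_of_nonneg_left h7 hδ'
    have h9 : (1 - δ) * (δ / 4 * e k + (1 + δ / 4) * e k) ≤ (1 - β') * e k := by
      have h10 : (1 - δ) * (δ / 4 * e k + (1 + δ / 4) * e k) =
        (1 - δ / 2 - δ ^ 2 / 2) * e k := by ring
      rw [h10]
      refine mul_le_mul_of_nonneg_right ?_ (by linarith)
      nlinarith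
    have h10 : (1 - β') * (ent (Qk k) T + ent (Qk k) U) = (1 - β') * e k := rfl
    rw [h10]
    linarith

theorem tau_ge (hM : MixStm) {δ R : ℝ} (hδ : 0 < δ) (hδ1 : δ < 1) (hR : 0 < R)
    (c : Cs δ R) : ∀ m : ℕ, ∀ P : Finset ℕ, P.card = m → (∀ q ∈ P, 2 ≤ q) →
      (∀ q ∈ P, ∀ q' ∈ P, q ≠ q' → Nat.Coprime q q') →
      ∀ X B : Finset ℤ, X.Nonempty → B.Nonempty →
      bnd δ R (c.κ * Real.log 2) c.j₀ m (Sz X B) ≤ tau P X B := by
  have hl : 0 < Real.log 2 := Real.log_pos (by norm_num)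
  have hκ : (1 : ℝ) ≤ c.κ := by exact_mod_cast c.hκ1
  have hΛ0 : (0 : ℝ) < c.κ * Real.log 2 := by positivity
  intro m
  induction m with
  | zero =>
    intro P _ _ _ X B hX hB
    exact (bnd_small hδ hR hΛ0.le (Nat.zero_le _) (Sz_nonneg X B)).trans (tau_nonneg _ _ _)
  | succ m ih =>
    intro P hPm hP2 hco X B hX hB
    by_cases hj : m < c.j₀
    · exact (bnd_small hδ hR hΛ0.le hj (Sz_nonneg X B)).trans (tau_nonneg _ _ _)
    push Not at hj
    by_cases hS : Sz X B ≤ c.κ * Real.log 2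
    · exact (bnd_low hδ hR (Sz_nonneg X B) hS).trans (tau_nonneg _ _ _)
    push Not at hS
    obtain ⟨q, hqP, ℓ, b, hℓ, hb, hdiv, hgen⟩ := c.gen P hP2 hco (by omega)
    set P' := P.erase q with hP'
    have hP'm : P'.card = m := by rw [hP', Finset.card_erase_of_mem hqP, hPm]; rfl
    have hPm1 : P.card - 1 = P'.card := by rw [hP'm, hPm]; rfl
    rw [hPm1] at hgen
    have hqP' : q ∉ P' := Finset.notMem_erase q P
    have hins : insert q P' = P := Finset.insert_erase hqP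
    have hq0 : q ≠ 0 := by have := hP2 q hqP; omega
    have hP'2 : ∀ q ∈ P', 2 ≤ q := fun q hq => hP2 q (Finset.mem_of_mem_erase hq)
    have hP'co : ∀ q ∈ P', ∀ q' ∈ P', q ≠ q' → Nat.Coprime q q' := fun q hq q' hq' =>
      hco q (Finset.mem_of_mem_erase hq) q' (Finset.mem_of_mem_erase hq')
    have ih' : ∀ X B : Finset ℤ, X.Nonempty → B.Nonempty →
        bnd δ R (c.κ * Real.log 2) c.j₀ m (Sz X B) ≤ tau P' X B :=
      ih P' hP'm hP'2 hP'co
    rw [← hins, Pool.Agent.TH959.SQ.tau_insert hqP']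
    have cX : (0 : ℝ) < X.card := by exact_mod_cast hX.card_pos
    have cB : (0 : ℝ) < B.card := by exact_mod_cast hB.card_pos
    set K₀ : ℕ := 2 ^ c.κ with hK₀
    have hK₀l : Real.log (K₀ : ℝ) = c.κ * Real.log 2 := by
      rw [hK₀]; push_cast; rw [Real.log_pow]
    have hK0 : (0 : ℝ) < K₀ := by rw [hK₀]; positivity
    have hK2 : 2 ≤ K₀ := by
      rw [hK₀]
      calc 2 = 2 ^ 1 := by norm_num
        _ ≤ 2 ^ c.κ := Nat.pow_le_pow_right (by norm_num) c.hκ1
    have hbig : K₀ ≤ X.card * B.card := by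
      have h1 : Real.log K₀ < Real.log (X.card * B.card) := by
        rw [Real.log_mul cX.ne' cB.ne', hK₀l]; exact hS
      have h2 := (Real.log_lt_log_iff hK0 (by positivity)).1 h1
      exact_mod_cast h2.le
    -- the level
    have hex : ∃ J : ℕ, mx ((ℓ : ℤ) ^ J) X * mx ((ℓ : ℤ) ^ J) B * K₀ ≤ X.card * B.card := by
      obtain ⟨J₁, h1⟩ := mx_large hℓ.two_le X
      obtain ⟨J₂, h2⟩ := mx_large hℓ.two_le B
      refine ⟨max J₁ J₂, ?_⟩
      calc mx ((ℓ : ℤ) ^ max J₁ J₂) X * mx ((ℓ : ℤ) ^ max J₁ J₂) B * K₀ ≤ 1 * 1 * K₀ :=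
            Nat.mul_le_mul_right _ (Nat.mul_le_mul (h1 _ (le_max_left _ _))
              (h2 _ (le_max_right _ _)))
        _ ≤ _ := by rw [one_mul, one_mul]; exact hbig
    obtain ⟨I, hI, hI'⟩ : ∃ I : ℕ,
        mx ((ℓ : ℤ) ^ (I + 1)) X * mx ((ℓ : ℤ) ^ (I + 1)) B * K₀ ≤ X.card * B.card ∧
        X.card * B.card < mx ((ℓ : ℤ) ^ I) X * mx ((ℓ : ℤ) ^ I) B * K₀ := by
      have h1 := Nat.find_spec hex
      have h2 : Nat.find hex ≠ 0 := by
        intro h0
        rw [h0, pow_zero, mx_one' hX, mx_one' hB] at h1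
        have h3 : 0 < X.card * B.card := Nat.mul_pos hX.card_pos hB.card_pos
        nlinarith
      obtain ⟨I, hIe⟩ := Nat.exists_eq_succ_of_ne_zero h2
      refine ⟨I, ?_, ?_⟩
      · rw [hIe] at h1; exact h1
      · have := Nat.find_min hex (m := I) (by rw [hIe]; exact Nat.lt_succ_self I)
        exact not_le.1 this
    -- the heavy class of `X`
    obtain ⟨x₀, hx₀, hx₀m⟩ := exists_mx ((ℓ : ℤ) ^ I) hX
    have hheavy : X.card ≤ (cls ((ℓ : ℤ) ^ I) X x₀).card * K₀ := by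
      rw [hx₀m]
      by_contra hcon
      push Not at hcon
      have h1 := mx_le ((ℓ : ℤ) ^ I) B
      have h2 : mx ((ℓ : ℤ) ^ I) X * mx ((ℓ : ℤ) ^ I) B * K₀ ≤
          mx ((ℓ : ℤ) ^ I) X * B.card * K₀ :=
        Nat.mul_le_mul_right _ (Nat.mul_le_mul_left _ h1)
      have h3 : mx ((ℓ : ℤ) ^ I) X * B.card * K₀ = mx ((ℓ : ℤ) ^ I) X * K₀ * B.card := by ring
      have h4 : mx ((ℓ : ℤ) ^ I) X * K₀ * B.card ≤ X.card * B.card :=
        Nat.mul_le_mul_right _ hcon.le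
      omega
    have hheavy' : Real.log X.card ≤ Real.log (cls ((ℓ : ℤ) ^ I) X x₀).card +
        c.κ * Real.log 2 := by
      have cc : (0 : ℝ) < (cls ((ℓ : ℤ) ^ I) X x₀).card := by
        exact_mod_cast (cls_nonempty _ hx₀).card_pos
      rw [← hK₀l, ← Real.log_mul cc.ne' hK0.ne']
      exact Real.log_le_log cX (by exact_mod_cast hheavy)
    -- the selections
    set Q' : ℤ := (ℓ : ℤ) ^ (I + 1 + c.n * (b - 1)) with hQ'
    obtain ⟨iX, T, hT, hTn, hTi, hT1, hT2⟩ := sel Q' X hX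
    obtain ⟨iB, U, hU, hUn, hUi, hU1, hU2⟩ := sel Q' B hB
    obtain ⟨hTl, hTk, hTc⟩ := sel_log hX hT hTn hTi hT1 hT2
    obtain ⟨hUl, hUk, hUc⟩ := sel_log hB hU hUn hUi hU1 hU2
    by_cases hiB : c.MB ≤ iB
    · -- the second summand has large residue entropy
      have hQd : Q' ∣ (q : ℤ) * (ℓ : ℤ) ^ I := by
        have h1 : I + 1 + c.n * (b - 1) = (c.n * (b - 1) + 1) + I := by ring
        rw [hQ', h1, pow_add]
        exact mul_dvd_mul_right (by exact_mod_cast hdiv) _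
      exact bnd_comb hR (ih' X B hX hB)
        (caseB hδ hδ1 hR c hq0 ih' hQd hx₀ hheavy' hU hUn hUi hiB hUl hUk)
    push Not at hiB
    have h0' : Sz (dil q X) B = Sz X B := by
      unfold Sz; rw [card_dil (by exact_mod_cast hq0 : (q : ℤ) ≠ 0)]
    have h0 := ih' (dil q X) B (dil_nonempty hX) hB
    rw [h0'] at h0
    rw [add_comm (tau P' X B)]
    refine bnd_comb hR h0 ?_
    have hℓq : ℓ ∣ q := (dvd_pow_self ℓ (by omega)).trans hdiv
    by_cases hiX : c.MX ≤ iX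
    · obtain ⟨b₀, hb₀⟩ := hUn
      exact caseX hδ hδ1 hR c ih' (fun s hs => pr_coprime hqP hco hℓq hs _) hT hTn hTi hiX hTl hTk
        (hU hb₀) hiB (hUl b₀ hb₀).1
    push Not at hiX
    refine caseM hM hδ hδ1 hR c hℓ hb hgen ih' (I := I) ?_ hT hTn hTi hiX
      (fun t ht => (hTl t ht).1) hTk hTc hU hUn hUi hiB (fun t ht => (hUl t ht).1) hUk hUc
    have hmpos : ∀ {Z : Finset ℤ}, Z.Nonempty → (0 : ℝ) < mx ((ℓ : ℤ) ^ (I + 1)) Z := by
      intro Z hZ
      obtain ⟨z, hz, hz'⟩ := exists_mx ((ℓ : ℤ) ^ (I + 1)) hZ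
      rw [← hz']
      exact_mod_cast (cls_nonempty _ hz).card_pos
    have h1 := hmpos hX
    have h2 := hmpos hB
    rw [← hK₀l, ← Real.log_mul h1.ne' h2.ne', ← Real.log_mul (by positivity) hK0.ne']
    unfold Sz
    rw [← Real.log_mul cX.ne' cB.ne']
    exact Real.log_le_log (by positivity) (by exact_mod_cast hI)

end Pool.Agent.K3h49.Lat
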