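import Pool.Agent.K3h49.Lat.DilMain
import Pool.Agent.K3h22.Lat.Gen
import Pool.Agent.K3h64.Lat.Mix

/-!
Sums with dilates by the divisors of a product of many pairwise coprime integers.
-/

set_option autoImplicit false

namespace Pool.Agent.K3h49.Lat

open Finset Pool.Agent.TH83.SQ
open scoped Pointwise Classical

/-- the mean over the subsets `s` of `P` of `log |(∏ s) X + B|` is almost as large as possible -/
theorem tau_large (δ θ : ℝ) (hδ : 0 < δ) (hθ : 0 < θ) :
    ∃ C : ℝ, 0 ≤ C ∧ ∀ P : Finset ℕ, (∀ q ∈ P, 2 ≤ q) →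
      (∀ q ∈ P, ∀ q' ∈ P, q ≠ q' → Nat.Coprime q q') →
      ∀ X B : Finset ℤ, X.Nonempty → B.Nonempty →
      θ * (Real.log X.card + Real.log B.card) ≤ P.card →
      (1 - δ) * (Real.log X.card + Real.log B.card) - C ≤ tau P X B := by
  obtain ⟨c⟩ := exists_cs Pool.Agent.K3h22.Lat.t_gen (min δ (1 / 2)) (4 / θ) (by positivity)
  have hl : 0 < Real.log 2 := Real.log_pos (by norm_num)
  refine ⟨c.κ * Real.log 2 + (4 / θ / 2) * Real.exp ((c.j₀ : ℝ) / 2), by positivity, ?_⟩
  intro P hP hco X B hX hB hS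
  have hδ1 : min δ (1 / 2) < 1 := lt_of_le_of_lt (min_le_right _ _) (by norm_num)
  have h := tau_ge Pool.Agent.K3h64.Lat.t_mix (by positivity : 0 < min δ (1 / 2)) hδ1
    (by positivity : 0 < 4 / θ) c P.card P rfl hP hco X B hX hB
  refine le_trans ?_ h
  have hS0 : 0 ≤ Sz X B := Sz_nonneg X B
  unfold bnd
  have h2 : Real.exp (2 / (4 / θ) * Sz X B - (P.card : ℝ) / 2) ≤ 1 := by
    rw [Real.exp_le_one_iff]
    have h3 : 2 / (4 / θ) * Sz X B = θ * (Real.log X.card + Real.log B.card) / 2 := by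
      unfold Sz
      field_simp; ring
    rw [h3]
    linarith
  have h4 : (4 / θ / 2) * Real.exp ((c.j₀ : ℝ) / 2) *
      Real.exp (2 / (4 / θ) * Sz X B - (P.card : ℝ) / 2) ≤
      (4 / θ / 2) * Real.exp ((c.j₀ : ℝ) / 2) * 1 :=
    mul_le_mul_of_nonneg_left h2 (by positivity)
  have h5 : (1 - δ) * Sz X B ≤ (1 - min δ (1 / 2)) * Sz X B :=
    mul_le_mul_of_nonneg_right (by have := min_le_left δ (1 / 2); linarith) hS0
  have h6 : Sz X B = Real.log X.card + Real.log B.card := rfl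
  rw [← h6]
  linarith

/-- some dilate by a product has a large sum set -/
theorem dilates (δ θ : ℝ) (hδ : 0 < δ) (hθ : 0 < θ) :
    ∃ C : ℝ, 0 ≤ C ∧ ∀ P : Finset ℕ, (∀ q ∈ P, 2 ≤ q) →
      (∀ q ∈ P, ∀ q' ∈ P, q ≠ q' → Nat.Coprime q q') →
      ∀ X B : Finset ℤ, X.Nonempty → B.Nonempty →
      θ * (Real.log X.card + Real.log B.card) ≤ P.card →
      ∃ s ⊆ P, (1 - δ) * (Real.log X.card + Real.log B.card) - C ≤
        Real.log ((dil (pr s) X + B).card : ℝ) := by
  obtain ⟨C, hC0, hC⟩ := tau_large δ θ hδ hθ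
  refine ⟨C, hC0, fun P hP hco X B hX hB hS => ?_⟩
  have h := hC P hP hco X B hX hB hS
  by_contra hcon
  push Not at hcon
  have h7 : tau P X B < (1 - δ) * (Real.log X.card + Real.log B.card) - C := by
    unfold tau
    rw [div_lt_iff₀ (by positivity)]
    have h8 : ∑ s ∈ P.powerset, Real.log ((dil (pr s) X + B).card : ℝ) <
        ∑ s ∈ P.powerset, ((1 - δ) * (Real.log X.card + Real.log B.card) - C) :=
      Finset.sum_lt_sum_of_nonempty ⟨∅, by simp⟩ fun s hs => hcon s (Finset.mem_powerset.1 hs)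
    rw [Finset.sum_const, Finset.card_powerset, nsmul_eq_mul] at h8
    push_cast at h8
    linarith
  linarith

end Pool.Agent.K3h49.Lat
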