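import Pool.Agent.K3h49.Lat.Main

/-!
Sum sets of finite sets of integers closed under `gcd` and `lcm`: all integers, iterated sums.
-/

set_option autoImplicit false

namespace Pool.Agent.K3h49.Lat

open Finset
open scoped Pointwise Classical

/-- the positive part of a set of integers closed under `gcd` and `lcm` -/
theorem pos_part {A : Finset ℤ} (hAn : A.Nonempty)
    (hg : ∀ a ∈ A, ∀ b ∈ A, (Int.gcd a b : ℤ) ∈ A)
    (hl : ∀ a ∈ A, ∀ b ∈ A, (Int.lcm a b : ℤ) ∈ A) :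
    ∃ L : Finset ℕ, (A.card = 1 ∨ (L.Nonempty ∧ A.card ≤ 3 * L.card)) ∧ IsLat L ∧ zi L ⊆ A := by
  set L : Finset ℕ := (A.image Int.natAbs).filter fun a => 0 < a with hL
  have hmem : ∀ {a : ℕ}, a ∈ L ↔ (∃ x ∈ A, x.natAbs = a) ∧ 0 < a := by
    intro a
    rw [hL, Finset.mem_filter, Finset.mem_image]
  have habs : ∀ x ∈ A, (x.natAbs : ℤ) ∈ A := by
    intro x hx
    have := hg x hx x hx
    rwa [Int.gcd_self] at this
  have hLA : ∀ a ∈ L, (a : ℤ) ∈ A := by
    intro a ha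
    obtain ⟨⟨x, hx, rfl⟩, _⟩ := hmem.1 ha
    exact habs x hx
  refine ⟨L, ?_, ⟨fun a ha => (hmem.1 ha).2, ?_, ?_⟩, ?_⟩
  · by_cases h0 : ∀ x ∈ A, x = 0
    · left
      have : A = {0} := by
        ext x
        rw [Finset.mem_singleton]
        constructor
        · exact h0 x
        · rintro rfl
          obtain ⟨y, hy⟩ := hAn
          rwa [h0 y hy] at hy
      rw [this]; rfl
    · push Not at h0
      obtain ⟨x, hx, hx0⟩ := h0
      right
      have hLn : L.Nonempty := ⟨x.natAbs, hmem.2 ⟨⟨x, hx, rfl⟩, Int.natAbs_pos.2 hx0⟩⟩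
      refine ⟨hLn, ?_⟩
      have h1 : A ⊆ insert 0 (L.image (fun a : ℕ => (a : ℤ)) ∪ L.image fun a : ℕ => -(a : ℤ)) := by
        intro y hy
        rw [Finset.mem_insert, Finset.mem_union, Finset.mem_image, Finset.mem_image]
        rcases eq_or_ne y 0 with h | h
        · left; exact h
        · right
          have hy' : y.natAbs ∈ L := hmem.2 ⟨⟨y, hy, rfl⟩, Int.natAbs_pos.2 h⟩
          rcases Int.natAbs_eq y with h2 | h2
          · left; exact ⟨_, hy', h2.symm⟩
          · right; exact ⟨_, hy', h2.symm⟩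
      have h2 := Finset.card_le_card h1
      have h3 := Finset.card_insert_le (0 : ℤ)
        (L.image (fun a : ℕ => (a : ℤ)) ∪ L.image fun a : ℕ => -(a : ℤ))
      have h4 := Finset.card_union_le (L.image (fun a : ℕ => (a : ℤ)))
        (L.image fun a : ℕ => -(a : ℤ))
      have h5 : (L.image (fun a : ℕ => (a : ℤ))).card ≤ L.card := Finset.card_image_le
      have h6 : (L.image fun a : ℕ => -(a : ℤ)).card ≤ L.card := Finset.card_image_le
      have h7 := hLn.card_pos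
      omega
  · intro a ha b hb
    have h1 := hg _ (hLA a ha) _ (hLA b hb)
    rw [Int.gcd_natCast_natCast] at h1
    refine hmem.2 ⟨⟨_, h1, by simp⟩, Nat.gcd_pos_of_pos_left _ (hmem.1 ha).2⟩
  · intro a ha b hb
    have h1 := hl _ (hLA a ha) _ (hLA b hb)
    rw [Int.lcm_natCast_natCast] at h1
    refine hmem.2 ⟨⟨_, h1, by simp⟩, Nat.lcm_pos (hmem.1 ha).2 (hmem.1 hb).2⟩
  · intro x hx
    obtain ⟨a, ha, rfl⟩ := mem_zi.1 hx
    exact hLA a ha

theorem ints (ε : ℝ) (hε : 0 < ε) :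
    ∃ c : ℝ, 0 < c ∧ c ≤ 1 ∧ ∀ A : Finset ℤ, A.Nonempty →
      (∀ a ∈ A, ∀ b ∈ A, (Int.gcd a b : ℤ) ∈ A) →
      (∀ a ∈ A, ∀ b ∈ A, (Int.lcm a b : ℤ) ∈ A) → ∀ B : Finset ℤ, B.Nonempty →
      c * ((A.card : ℝ) * B.card) ^ (1 - ε) ≤ ((A + B).card : ℝ) := by
  obtain ⟨c, hc, h⟩ := main (min ε (1 / 2)) (by positivity)
    (lt_of_le_of_lt (min_le_right _ _) (by norm_num))
  refine ⟨min 1 (c / 3), by positivity, min_le_left _ _, ?_⟩
  intro A hAn hg hl B hB
  have cA : (1 : ℝ) ≤ A.card := by exact_mod_cast hAn.card_pos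
  have cB : (1 : ℝ) ≤ B.card := by exact_mod_cast hB.card_pos
  have cAB : (1 : ℝ) ≤ (A.card : ℝ) * B.card := by nlinarith
  have hexp : ((A.card : ℝ) * B.card) ^ (1 - ε) ≤
      ((A.card : ℝ) * B.card) ^ (1 - min ε (1 / 2)) :=
    Real.rpow_le_rpow_of_exponent_le cAB (by have := min_le_left ε (1 / 2); linarith)
  have hmc : 0 ≤ min 1 (c / 3) := by positivity
  refine le_trans (mul_le_mul_of_nonneg_left hexp hmc) ?_
  obtain ⟨L, h1, hL, hLA⟩ := pos_part hAn hg hl
  rcases h1 with h1 | ⟨hLn, h1⟩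
  · have h2 : (B.card : ℝ) ≤ ((A + B).card : ℝ) := by exact_mod_cast card_add_ge hAn
    rw [h1, Nat.cast_one, one_mul]
    calc min 1 (c / 3) * (B.card : ℝ) ^ (1 - min ε (1 / 2)) ≤
          1 * (B.card : ℝ) ^ (1 - min ε (1 / 2)) :=
          mul_le_mul_of_nonneg_right (min_le_left _ _) (by positivity)
      _ ≤ 1 * (B.card : ℝ) ^ (1 : ℝ) := by
          rw [one_mul, one_mul]
          have : 0 < min ε (1 / 2) := by positivity
          exact Real.rpow_le_rpow_of_exponent_le cB (by linarith)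
      _ = B.card := by rw [one_mul, Real.rpow_one]
      _ ≤ _ := h2
  · have h2 := h L hL hLn B hB
    have h3 : ((zi L + B).card : ℝ) ≤ ((A + B).card : ℝ) := by
      exact_mod_cast Finset.card_le_card (Finset.add_subset_add_right hLA)
    refine le_trans ?_ (h2.trans h3)
    have cL : (0 : ℝ) < L.card := by exact_mod_cast hLn.card_pos
    have h4 : (A.card : ℝ) ≤ 3 * L.card := by exact_mod_cast h1
    have hm0 : 0 < min ε (1 / 2) := by positivity
    have hm1 : min ε (1 / 2) ≤ 1 / 2 := min_le_right _ _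
    have h5 : ((A.card : ℝ) * B.card) ^ (1 - min ε (1 / 2)) ≤
        3 * ((L.card : ℝ) * B.card) ^ (1 - min ε (1 / 2)) := by
      calc ((A.card : ℝ) * B.card) ^ (1 - min ε (1 / 2)) ≤
            (3 * (L.card * B.card)) ^ (1 - min ε (1 / 2)) := by
            refine Real.rpow_le_rpow (by positivity) ?_ (by linarith)
            nlinarith
        _ = 3 ^ (1 - min ε (1 / 2)) * ((L.card : ℝ) * B.card) ^ (1 - min ε (1 / 2)) :=
            Real.mul_rpow (by norm_num) (by positivity)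
        _ ≤ 3 ^ (1 : ℝ) * ((L.card : ℝ) * B.card) ^ (1 - min ε (1 / 2)) := by
            refine mul_le_mul_of_nonneg_right ?_ (by positivity)
            exact Real.rpow_le_rpow_of_exponent_le (by norm_num) (by linarith)
        _ = _ := by rw [Real.rpow_one]
    calc min 1 (c / 3) * ((A.card : ℝ) * B.card) ^ (1 - min ε (1 / 2)) ≤
          (c / 3) * (3 * ((L.card : ℝ) * B.card) ^ (1 - min ε (1 / 2))) :=
          mul_le_mul (min_le_right _ _) h5 (by positivity) (by positivity)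
      _ = _ := by ring

/-- the `k`-fold sum set -/
def ks (k : ℕ) (A : Finset ℤ) : Finset ℤ :=
  (Fintype.piFinset fun _ : Fin k => A).image fun f => ∑ i, f i

theorem ks_zero (A : Finset ℤ) : ks 0 A = {0} := by
  unfold ks
  ext x
  simp only [Finset.mem_image, Fintype.mem_piFinset, Finset.mem_singleton]
  constructor
  · rintro ⟨f, _, rfl⟩
    rw [Finset.univ_eq_empty, Finset.sum_empty]
  · rintro rfl
    refine ⟨fun _ => 0, fun i => i.elim0, ?_⟩
    rw [Finset.univ_eq_empty, Finset.sum_empty]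

theorem add_ks_subset (k : ℕ) (A : Finset ℤ) : A + ks k A ⊆ ks (k + 1) A := by
  intro x hx
  obtain ⟨a, ha, y, hy, rfl⟩ := Finset.mem_add.1 hx
  obtain ⟨f, hf, rfl⟩ := Finset.mem_image.1 hy
  rw [Fintype.mem_piFinset] at hf
  refine Finset.mem_image.2 ⟨Fin.cons a f, ?_, ?_⟩
  · rw [Fintype.mem_piFinset]
    intro i
    refine Fin.cases ?_ (fun j => ?_) i
    · simpa using ha
    · simpa using hf j
  · rw [Fin.sum_univ_succ]
    simp

theorem kfold (k : ℕ) (ε : ℝ) (hε : 0 < ε) :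
    ∃ c : ℝ, 0 < c ∧ ∀ A : Finset ℤ, A.Nonempty →
      (∀ a ∈ A, ∀ b ∈ A, (Int.gcd a b : ℤ) ∈ A) →
      (∀ a ∈ A, ∀ b ∈ A, (Int.lcm a b : ℤ) ∈ A) → ∀ B : Finset ℤ, B.Nonempty →
      c * (A.card : ℝ) ^ ((k : ℝ) - ε) * (B.card : ℝ) ^ (1 - ε) ≤ ((ks k A + B).card : ℝ) := by
  induction k generalizing ε with
  | zero =>
    refine ⟨1, one_pos, fun A hA _ _ B hB => ?_⟩
    have cA : (1 : ℝ) ≤ A.card := by exact_mod_cast hA.card_pos
    have cB : (1 : ℝ) ≤ B.card := by exact_mod_cast hB.card_pos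
    rw [ks_zero]
    have h1 : (({0} : Finset ℤ) + B) = B := by
      rw [Finset.singleton_zero, zero_add]
    rw [h1]
    have h2 : (A.card : ℝ) ^ (((0 : ℕ) : ℝ) - ε) ≤ 1 := by
      refine Real.rpow_le_one_of_one_le_of_nonpos cA ?_
      push_cast; linarith
    have h3 : (B.card : ℝ) ^ (1 - ε) ≤ (B.card : ℝ) ^ (1 : ℝ) :=
      Real.rpow_le_rpow_of_exponent_le cB (by linarith)
    rw [Real.rpow_one] at h3
    calc 1 * (A.card : ℝ) ^ (((0 : ℕ) : ℝ) - ε) * (B.card : ℝ) ^ (1 - ε) ≤ 1 * 1 * B.card := by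
          rw [one_mul, one_mul]
          exact mul_le_mul h2 h3 (by positivity) zero_le_one
      _ = B.card := by ring
  | succ k ih =>
    -- the exponents
    set ε₁ : ℝ := min (ε / 2) (1 / 2) with hε₁
    have h10 : 0 < ε₁ := by positivity
    have h12 : ε₁ ≤ 1 / 2 := min_le_right _ _
    have h11 : ε₁ ≤ ε / 2 := min_le_left _ _
    set ε₂ : ℝ := min (ε₁ / (k + 1)) (1 / 2) with hε₂
    have h20 : 0 < ε₂ := by positivity
    have h22 : ε₂ ≤ 1 / 2 := min_le_right _ _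
    have h21 : ε₂ * (k + 1) ≤ ε₁ := by
      have := min_le_left (ε₁ / (k + 1)) (1 / 2)
      rw [← hε₂, le_div_iff₀ (by positivity)] at this
      exact this
    obtain ⟨c, hc, h⟩ := ih ε₁ h10
    obtain ⟨c', hc', _, h'⟩ := ints ε₂ h20
    refine ⟨c' * c ^ (1 - ε₂), by positivity, ?_⟩
    intro A hA hg hl B hB
    have cA : (1 : ℝ) ≤ A.card := by exact_mod_cast hA.card_pos
    have cB : (1 : ℝ) ≤ B.card := by exact_mod_cast hB.card_pos
    have hksn : (ks k A).Nonempty := by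
      unfold ks
      refine Finset.Nonempty.image ?_ _
      obtain ⟨a, ha⟩ := hA
      exact ⟨fun _ => a, by rw [Fintype.mem_piFinset]; exact fun _ => ha⟩
    have h1 := h A hA hg hl B hB
    have h2 := h' A hA hg hl (ks k A + B) (hksn.add hB)
    have h3 : ((A + (ks k A + B)).card : ℝ) ≤ ((ks (k + 1) A + B).card : ℝ) := by
      rw [← add_assoc]
      exact_mod_cast Finset.card_le_card (Finset.add_subset_add_right (add_ks_subset k A))
    refine le_trans ?_ (h2.trans h3)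
    have h4 : (A.card : ℝ) * (c * (A.card : ℝ) ^ ((k : ℝ) - ε₁) * (B.card : ℝ) ^ (1 - ε₁)) ≤
        (A.card : ℝ) * ((ks k A + B).card : ℝ) := mul_le_mul_of_nonneg_left h1 (by linarith)
    have h5 := Real.rpow_le_rpow (by positivity) h4 (by linarith : (0 : ℝ) ≤ 1 - ε₂)
    refine le_trans ?_ (mul_le_mul_of_nonneg_left h5 hc'.le)
    have e1 : (A.card : ℝ) * (c * (A.card : ℝ) ^ ((k : ℝ) - ε₁) * (B.card : ℝ) ^ (1 - ε₁)) =
        c * ((A.card : ℝ) ^ ((k : ℝ) - ε₁ + 1) * (B.card : ℝ) ^ (1 - ε₁)) := by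
      rw [Real.rpow_add (by linarith), Real.rpow_one]; ring
    rw [e1, Real.mul_rpow hc.le (by positivity), Real.mul_rpow (by positivity) (by positivity),
      ← Real.rpow_mul (by linarith), ← Real.rpow_mul (by linarith)]
    have h6 : (A.card : ℝ) ^ (((k + 1 : ℕ) : ℝ) - ε) ≤
        (A.card : ℝ) ^ (((k : ℝ) - ε₁ + 1) * (1 - ε₂)) := by
      refine Real.rpow_le_rpow_of_exponent_le cA ?_
      push_cast
      nlinarith [mul_pos h10 h20]
    have h7 : (B.card : ℝ) ^ (1 - ε) ≤ (B.card : ℝ) ^ ((1 - ε₁) * (1 - ε₂)) := by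
      refine Real.rpow_le_rpow_of_exponent_le cB ?_
      have h8 : ε₂ ≤ ε₁ := by
        have : ε₂ * 1 ≤ ε₂ * (k + 1) := mul_le_mul_of_nonneg_left
          (by have : (0 : ℝ) ≤ k := Nat.cast_nonneg k; linarith) h20.le
        linarith
      nlinarith [mul_pos h10 h20]
    have h8 : 0 < c ^ (1 - ε₂) := by positivity
    calc c' * c ^ (1 - ε₂) * (A.card : ℝ) ^ (((k + 1 : ℕ) : ℝ) - ε) * (B.card : ℝ) ^ (1 - ε) =
          c' * (c ^ (1 - ε₂) * ((A.card : ℝ) ^ (((k + 1 : ℕ) : ℝ) - ε) *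
            (B.card : ℝ) ^ (1 - ε))) := by ring
      _ ≤ _ := by
          refine mul_le_mul_of_nonneg_left (mul_le_mul_of_nonneg_left ?_ h8.le) hc'.le
          exact mul_le_mul h6 h7 (by positivity) (by positivity)

end Pool.Agent.K3h49.Lat
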