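import Pool.Agent.K3h49.Lat.Dilates
import Pool.Agent.K3h56.Lat.Chain
import Pool.Agent.K3h8.Lat.Atoms

/-!
Sum sets of sets of positive integers closed under `gcd` and `lcm`.
-/

set_option autoImplicit false

namespace Pool.Agent.K3h49.Lat

open Finset Pool.Agent.TH83.SQ
open scoped Pointwise Classical

/-- closed under `gcd` and `lcm`, with positive elements -/
def IsLat (A : Finset ℕ) : Prop :=
  (∀ a ∈ A, 0 < a) ∧ (∀ a ∈ A, ∀ b ∈ A, Nat.gcd a b ∈ A) ∧ (∀ a ∈ A, ∀ b ∈ A, Nat.lcm a b ∈ A)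

/-- the set as a set of integers -/
def zi (A : Finset ℕ) : Finset ℤ := A.image fun a : ℕ => (a : ℤ)

theorem mem_zi {A : Finset ℕ} {x : ℤ} : x ∈ zi A ↔ ∃ a ∈ A, (a : ℤ) = x := Finset.mem_image

theorem card_zi (A : Finset ℕ) : (zi A).card = A.card :=
  Finset.card_image_of_injective _ Nat.cast_injective

theorem zi_nonempty {A : Finset ℕ} (h : A.Nonempty) : (zi A).Nonempty := h.image _

/-- the multiples of `h` -/
def mul (A : Finset ℕ) (h : ℕ) : Finset ℕ := A.filter fun a => h ∣ a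

theorem mem_mul {A : Finset ℕ} {h a : ℕ} : a ∈ mul A h ↔ a ∈ A ∧ h ∣ a := Finset.mem_filter

theorem isLat_mul {A : Finset ℕ} (hA : IsLat A) (h : ℕ) : IsLat (mul A h) := by
  refine ⟨fun a ha => hA.1 a (mem_mul.1 ha).1, fun a ha b hb => ?_, fun a ha b hb => ?_⟩
  · rw [mem_mul] at ha hb ⊢
    exact ⟨hA.2.1 a ha.1 b hb.1, Nat.dvd_gcd ha.2 hb.2⟩
  · rw [mem_mul] at ha hb ⊢
    exact ⟨hA.2.2 a ha.1 b hb.1, ha.2.trans (Nat.dvd_lcm_left a b)⟩

/-- the least element -/
theorem exists_least {A : Finset ℕ} (hA : IsLat A) (hn : A.Nonempty) :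
    ∃ h ∈ A, ∀ a ∈ A, h ∣ a := by
  refine ⟨A.min' hn, A.min'_mem hn, fun a ha => ?_⟩
  have h1 := hA.2.1 _ (A.min'_mem hn) a ha
  have h2 := A.min'_le _ h1
  have h3 : 0 < A.min' hn := hA.1 _ (A.min'_mem hn)
  have h4 := Nat.le_of_dvd h3 (Nat.gcd_dvd_left (A.min' hn) a)
  have h5 : Nat.gcd (A.min' hn) a = A.min' hn := le_antisymm h4 h2
  rw [← h5]
  exact Nat.gcd_dvd_right _ _

theorem card_add_ge {A B : Finset ℤ} (hA : A.Nonempty) : B.card ≤ (A + B).card :=
  Finset.card_le_card_add_left hA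

theorem lcm_atom {a b u h : ℕ} (hh : 0 < h) (ha : Nat.gcd a u = h) (hb : Nat.gcd b u = h)
    (hd : u ∣ Nat.lcm a b) : u = h := by
  obtain ⟨a', rfl⟩ : h ∣ a := ha ▸ Nat.gcd_dvd_left a u
  obtain ⟨b', rfl⟩ : h ∣ b := hb ▸ Nat.gcd_dvd_left b u
  obtain ⟨u', rfl⟩ : h ∣ u := ha ▸ Nat.gcd_dvd_right _ u
  rw [Nat.gcd_mul_left] at ha hb
  have ha' : Nat.Coprime a' u' := by
    have : h * Nat.gcd a' u' = h * 1 := by rw [ha, mul_one]
    exact Nat.eq_of_mul_eq_mul_left hh this
  have hb' : Nat.Coprime b' u' := by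
    have : h * Nat.gcd b' u' = h * 1 := by rw [hb, mul_one]
    exact Nat.eq_of_mul_eq_mul_left hh this
  have h1 : Nat.lcm (h * a') (h * b') ∣ h * (a' * b') :=
    Nat.lcm_dvd (mul_dvd_mul_left _ (dvd_mul_right _ _)) (mul_dvd_mul_left _ (dvd_mul_left _ _))
  have h2 : u' ∣ a' * b' := Nat.dvd_of_mul_dvd_mul_left hh (hd.trans h1)
  have h3 : Nat.Coprime (a' * b') u' := Nat.Coprime.mul_left ha' hb'
  have h4 : u' = 1 := Nat.Coprime.eq_one_of_dvd h3.symm h2
  rw [h4, mul_one]

theorem stuck (ε R : ℝ) (hε : 0 < ε) (hε1 : ε < 1) (hR : 1 < R) :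
    ∃ a₀ : ℝ, 0 ≤ a₀ ∧ ∀ A : Finset ℕ, IsLat A → A.Nonempty → a₀ ≤ Real.log A.card →
      ∀ h ∈ A, A.card ≤ 2 * (mul A h).card →
      (∀ u ∈ mul A h, u ≠ h → (∀ a ∈ mul A h, a ∣ u → a = h ∨ a = u) →
        ((mul A h).card : ℝ) ≤ R * (((mul A h).filter fun a => ¬ u ∣ a).card : ℝ)) →
      ∀ B : Finset ℤ, B.Nonempty →
        ((A.card : ℝ) * B.card) ^ (1 - ε) ≤ ((zi A + B).card : ℝ) := by
  have hlR : 0 < Real.log R := Real.log_pos hR
  have hl2 : 0 < Real.log 2 := Real.log_pos (by norm_num)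
  have hl2' : Real.log 2 < 1 := by have := Real.log_two_lt_d9; linarith
  set η : ℝ := ε / (4 * Real.log R) with hη
  have hη0 : 0 < η := by positivity
  set θ : ℝ := η / (2 * (1 + 1 / ε)) with hθ
  have hθ0 : 0 < θ := by positivity
  obtain ⟨C, hC0, hC⟩ := dilates (ε / 4) θ (by positivity) hθ0
  refine ⟨max 2 (max (2 / η) (2 * (C + 1) / ε)), by positivity, ?_⟩
  intro A hA hAn ha₀ h hh hhalf hat B hB
  have ha2 : 2 ≤ Real.log A.card := (le_max_left _ _).trans ha₀
  have haη : 2 / η ≤ Real.log A.card := (le_max_left _ _).trans ((le_max_right _ _).trans ha₀)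
  have haC : 2 * (C + 1) / ε ≤ Real.log A.card :=
    (le_max_right _ _).trans ((le_max_right _ _).trans ha₀)
  set a := Real.log A.card with ha
  set b := Real.log B.card with hb
  have cA : (0 : ℝ) < A.card := by exact_mod_cast hAn.card_pos
  have cB : (0 : ℝ) < B.card := by exact_mod_cast hB.card_pos
  have hb0 : 0 ≤ b := Real.log_natCast_nonneg _
  have hpow : ((A.card : ℝ) * B.card) ^ (1 - ε) = Real.exp ((1 - ε) * (a + b)) := by
    rw [Real.rpow_def_of_pos (by positivity), Real.log_mul cA.ne' cB.ne', mul_comm]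
  rw [hpow]
  have cAB : (0 : ℝ) < (zi A + B).card := by
    exact_mod_cast ((zi_nonempty hAn).add hB).card_pos
  -- it suffices to compare logarithms
  suffices hmain : (1 - ε) * (a + b) ≤ Real.log ((zi A + B).card : ℝ) by
    calc _ ≤ Real.exp (Real.log ((zi A + B).card : ℝ)) := Real.exp_le_exp.2 hmain
      _ = _ := Real.exp_log cAB
  by_cases hbig : a / ε < b
  · have h1 : b ≤ Real.log ((zi A + B).card : ℝ) :=
      Real.log_le_log cB (by exact_mod_cast card_add_ge (zi_nonempty hAn))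
    have h2 : a < b * ε := (div_lt_iff₀ hε).1 hbig
    nlinarith
  push Not at hbig
  -- the many atoms
  set L := mul A h with hL
  have hLl : IsLat L := isLat_mul hA h
  have hhL : h ∈ L := mem_mul.2 ⟨hh, dvd_rfl⟩
  have cL : (0 : ℝ) < L.card := by exact_mod_cast Finset.card_pos.2 ⟨h, hhL⟩
  have hLa : a - Real.log 2 ≤ Real.log L.card := by
    have h1 : (A.card : ℝ) ≤ 2 * L.card := by exact_mod_cast hhalf
    have h2 := Real.log_le_log cA h1
    rw [Real.log_mul (by norm_num) cL.ne'] at h2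
    linarith
  set s : ℕ := ⌊η * a⌋₊ with hs
  have hs1 : (s : ℝ) ≤ η * a := Nat.floor_le (by positivity)
  have hs2 : η * a < s + 1 := Nat.lt_floor_add_one _
  have hs3 : s * Real.log R ≤ ε / 4 * a := by
    calc s * Real.log R ≤ (η * a) * Real.log R := mul_le_mul_of_nonneg_right hs1 hlR.le
      _ = ε / 4 * a := by rw [hη]; field_simp
  have hRs : R ^ s ≤ (L.card : ℝ) := by
    rw [← Real.log_le_log_iff (by positivity) cL, Real.log_pow]
    nlinarith
  obtain ⟨P, hPs, hP2, hPco, X, hXL, hXn, hXc, hXP⟩ := Pool.Agent.K3h8.Lat.t_atoms L hLl.1 hLl.2.1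
    hLl.2.2 h hhL (fun a ha => (mem_mul.1 ha).2) R hR hat s hRs
  have cX : (0 : ℝ) < X.card := by exact_mod_cast hXn.card_pos
  have hXl : a - Real.log 2 - ε / 4 * a ≤ Real.log X.card := by
    have h2 := Real.log_le_log cL hXc
    rw [Real.log_mul (by positivity) cX.ne', Real.log_pow] at h2
    linarith
  have hXA : Real.log X.card ≤ a := by
    have h1 : X.card ≤ A.card := Finset.card_le_card (hXL.trans (Finset.filter_subset _ _))
    exact Real.log_le_log cX (by exact_mod_cast h1)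
  obtain ⟨S, hSP, hS⟩ := hC P hP2 hPco (zi X) B (zi_nonempty hXn) hB (by
    rw [card_zi, hPs]
    have h1 : θ * (Real.log X.card + b) ≤ θ * (a + a / ε) :=
      mul_le_mul_of_nonneg_left (by linarith) hθ0.le
    have h2 : θ * (a + a / ε) = η / 2 * a := by
      rw [hθ]; field_simp
    have h3 : 2 ≤ a * η := by
      rwa [div_le_iff₀ hη0] at haη
    rw [← hb]
    linarith)
  rw [card_zi, ← hb] at hS
  have hsub : dil (pr S) (zi X) + B ⊆ zi A + B := by
    refine Finset.add_subset_add_right ?_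
    intro z hz
    obtain ⟨x, hx, rfl⟩ := Finset.mem_image.1 hz
    obtain ⟨y, hy, rfl⟩ := mem_zi.1 hx
    refine mem_zi.2 ⟨(∏ q ∈ S, q) * y, ?_, ?_⟩
    · exact (mem_mul.1 (hXP S hSP y hy)).1
    · unfold pr; push_cast; rfl
  have hlog : Real.log ((dil (pr S) (zi X) + B).card : ℝ) ≤ Real.log ((zi A + B).card : ℝ) := by
    refine Real.log_le_log ?_ (by exact_mod_cast Finset.card_le_card hsub)
    exact_mod_cast ((dil_nonempty (zi_nonempty hXn)).add hB).card_pos
  refine le_trans ?_ (hS.trans hlog)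
  have hCa : 2 * (C + 1) ≤ a * ε := by
    rwa [div_le_iff₀ hε] at haC
  have h1 : (1 - ε / 4) * (a - Real.log 2 - ε / 4 * a + b) ≤
      (1 - ε / 4) * (Real.log X.card + b) :=
    mul_le_mul_of_nonneg_left (by linarith) (by linarith)
  have h2 : 0 ≤ ε * b := by positivity
  nlinarith [mul_pos hε hl2, mul_pos (mul_pos hε hε) (by linarith : (0 : ℝ) < a)]

theorem main (ε : ℝ) (hε : 0 < ε) (hε1 : ε < 1) :
    ∃ c : ℝ, 0 < c ∧ ∀ A : Finset ℕ, IsLat A → A.Nonempty → ∀ B : Finset ℤ, B.Nonempty →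
      c * ((A.card : ℝ) * B.card) ^ (1 - ε) ≤ ((zi A + B).card : ℝ) := by
  set c' : ℝ := ((2 : ℝ) ^ ε - 1) / 4 with hc'
  have h2ε : (1 : ℝ) < 2 ^ ε := Real.one_lt_rpow (by norm_num) hε
  have hc'0 : 0 < c' := by rw [hc']; linarith
  have h2ε2 : (2 : ℝ) ^ ε < 2 := by
    calc (2 : ℝ) ^ ε < 2 ^ (1 : ℝ) := Real.rpow_lt_rpow_of_exponent_lt (by norm_num) hε1
      _ = 2 := by norm_num
  have hc'1 : c' < 1 / 4 := by rw [hc']; linarith
  set R : ℝ := (2 / c') ^ (1 / ε) with hR
  have hR1 : 1 < R := by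
    rw [hR]
    refine Real.one_lt_rpow ?_ (by positivity)
    rw [lt_div_iff₀ hc'0]; linarith
  have hRε : c' * R ^ ε = 2 := by
    rw [hR, ← Real.rpow_mul (by positivity), one_div_mul_cancel hε.ne', Real.rpow_one]
    field_simp
  obtain ⟨a₀, ha₀, hstuck⟩ := stuck ε R hε hε1 hR1
  set c : ℝ := Real.exp (-a₀) with hc
  have hc0 : 0 < c := Real.exp_pos _
  have hc1 : c ≤ 1 := by rw [hc, Real.exp_le_one_iff]; linarith
  refine ⟨c, hc0, ?_⟩
  -- induction on the cardinality
  suffices H : ∀ n : ℕ, ∀ A : Finset ℕ, A.card = n → IsLat A → A.Nonempty → ∀ B : Finset ℤ,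
      B.Nonempty → c * ((A.card : ℝ) * B.card) ^ (1 - ε) ≤ ((zi A + B).card : ℝ) from
    fun A hA hAn B hB => H A.card A rfl hA hAn B hB
  intro n
  induction n using Nat.strong_induction_on with
  | _ n ih =>
  intro A hAc hA hAn B hB
  have cA : (0 : ℝ) < A.card := by exact_mod_cast hAn.card_pos
  by_cases hsmall : Real.log A.card < a₀
  · -- small sets
    have cB : (0 : ℝ) < B.card := by exact_mod_cast hB.card_pos
    have h1 : c * (A.card : ℝ) ≤ 1 := by
      have : (A.card : ℝ) ≤ Real.exp a₀ := by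
        rw [← Real.exp_log cA]
        exact Real.exp_le_exp.2 hsmall.le
      calc c * (A.card : ℝ) ≤ c * Real.exp a₀ := mul_le_mul_of_nonneg_left this hc0.le
        _ = 1 := by rw [hc, ← Real.exp_add]; simp
    have h2 : (A.card : ℝ) ^ (1 - ε) ≤ A.card := by
      have : (1 : ℝ) ≤ A.card := by exact_mod_cast hAn.card_pos
      calc (A.card : ℝ) ^ (1 - ε) ≤ (A.card : ℝ) ^ (1 : ℝ) :=
            Real.rpow_le_rpow_of_exponent_le this (by linarith)
        _ = _ := Real.rpow_one _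
    have h3 : (B.card : ℝ) ^ (1 - ε) ≤ B.card := by
      have : (1 : ℝ) ≤ B.card := by exact_mod_cast hB.card_pos
      calc (B.card : ℝ) ^ (1 - ε) ≤ (B.card : ℝ) ^ (1 : ℝ) :=
            Real.rpow_le_rpow_of_exponent_le this (by linarith)
        _ = _ := Real.rpow_one _
    have h4 : (B.card : ℝ) ≤ ((zi A + B).card : ℝ) := by
      exact_mod_cast card_add_ge (zi_nonempty hAn)
    rw [Real.mul_rpow cA.le cB.le]
    calc c * ((A.card : ℝ) ^ (1 - ε) * (B.card : ℝ) ^ (1 - ε)) ≤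
          c * ((A.card : ℝ) * B.card) := by
          refine mul_le_mul_of_nonneg_left ?_ hc0.le
          exact mul_le_mul h2 h3 (by positivity) cA.le
      _ = (c * A.card) * B.card := by ring
      _ ≤ 1 * B.card := mul_le_mul_of_nonneg_right h1 cB.le
      _ ≤ _ := by rw [one_mul]; exact h4
  push Not at hsmall
  by_cases hst : ∃ h ∈ A, A.card ≤ 2 * (mul A h).card ∧
      (∀ u ∈ mul A h, u ≠ h → (∀ a ∈ mul A h, a ∣ u → a = h ∨ a = u) →
        ((mul A h).card : ℝ) ≤ R * (((mul A h).filter fun a => ¬ u ∣ a).card : ℝ))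
  · obtain ⟨h, hh, h1, h2⟩ := hst
    have h3 := hstuck A hA hAn hsmall h hh h1 h2 B hB
    have h4 : 0 ≤ ((A.card : ℝ) * B.card) ^ (1 - ε) := by positivity
    nlinarith
  push Not at hst
  -- the chain
  set κ : ℝ := c' * c * ((A.card : ℝ) / R) ^ (-ε) with hκ
  have hκ0 : 0 < κ := by positivity
  have hchain : ∀ m : ℕ, ∀ h ∈ A, (mul A h).card = m → ∀ B : Finset ℤ, B.Nonempty →
      κ * ((m : ℝ) - A.card / 2) * (B.card : ℝ) ^ (1 - ε) ≤ ((zi (mul A h) + B).card : ℝ) := by
    intro m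
    induction m using Nat.strong_induction_on with
    | _ m ihm =>
    intro h hh hm B hB
    by_cases hhalf : A.card ≤ 2 * (mul A h).card
    swap
    · push Not at hhalf
      have h1 : (m : ℝ) - A.card / 2 ≤ 0 := by
        have : (2 : ℝ) * m < A.card := by rw [← hm]; exact_mod_cast hhalf
        linarith
      have h2 : κ * ((m : ℝ) - A.card / 2) * (B.card : ℝ) ^ (1 - ε) ≤ 0 :=
        mul_nonpos_of_nonpos_of_nonneg (mul_nonpos_of_nonneg_of_nonpos hκ0.le h1) (by positivity)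
      exact h2.trans (Nat.cast_nonneg _)
    obtain ⟨u, huL, huh, huat, hufew⟩ := hst h hh hhalf
    have huA : u ∈ A := (mem_mul.1 huL).1
    have hhu : h ∣ u := (mem_mul.1 huL).2
    set X := (mul A h).filter fun a => ¬ u ∣ a with hX
    have hmemX : ∀ {a}, a ∈ X ↔ (a ∈ A ∧ h ∣ a) ∧ ¬ u ∣ a := by
      intro a
      rw [hX, Finset.mem_filter, mem_mul]
    have hnuh : ¬ u ∣ h := fun h' => huh (Nat.dvd_antisymm h' hhu)
    have hhX : h ∈ X := hmemX.2 ⟨⟨hh, dvd_rfl⟩, hnuh⟩
    have hXn : X.Nonempty := ⟨h, hhX⟩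
    -- the gcd with `u` of an element of `X` is `h`
    have hgcd : ∀ a ∈ X, Nat.gcd a u = h := by
      intro a ha
      rw [hmemX] at ha
      have h1 : Nat.gcd a u ∈ mul A h :=
        mem_mul.2 ⟨hA.2.1 a ha.1.1 u huA, Nat.dvd_gcd ha.1.2 hhu⟩
      rcases huat _ h1 (Nat.gcd_dvd_right a u) with h2 | h2
      · exact h2
      · exact absurd (h2 ▸ Nat.gcd_dvd_left a u) ha.2
    have hXl : IsLat X := by
      refine ⟨fun a ha => hA.1 a (hmemX.1 ha).1.1, fun a ha b hb => ?_, fun a ha b hb => ?_⟩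
      · have ha' := hmemX.1 ha
        have hb' := hmemX.1 hb
        refine hmemX.2 ⟨⟨hA.2.1 a ha'.1.1 b hb'.1.1, Nat.dvd_gcd ha'.1.2 hb'.1.2⟩, ?_⟩
        exact fun h' => ha'.2 (h'.trans (Nat.gcd_dvd_left a b))
      · have ha' := hmemX.1 ha
        have hb' := hmemX.1 hb
        refine hmemX.2 ⟨⟨hA.2.2 a ha'.1.1 b hb'.1.1, ha'.1.2.trans (Nat.dvd_lcm_left a b)⟩, ?_⟩
        intro h'
        exact huh (lcm_atom (hA.1 h hh) (hgcd a ha) (hgcd b hb) h')
    have hXcard : (X.card : ℝ) ≤ A.card / R := by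
      have h1 : ((mul A h).card : ℝ) ≤ A.card := by
        exact_mod_cast Finset.card_le_card (Finset.filter_subset _ _)
      rw [le_div_iff₀ (by linarith)]
      linarith
    have cX : (0 : ℝ) < X.card := by exact_mod_cast hXn.card_pos
    have hXlt : X.card < n := by
      have h1 : (X.card : ℝ) < A.card := lt_of_le_of_lt hXcard (div_lt_self cA hR1)
      have h2 : X.card < A.card := by exact_mod_cast h1
      omega
    have hYeq : (mul A h).filter (fun a => u ∣ a) = mul A u := by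
      ext a
      rw [Finset.mem_filter, mem_mul, mem_mul]
      exact ⟨fun h1 => ⟨h1.1.1, h1.2⟩, fun h1 => ⟨⟨h1.1, hhu.trans h1.2⟩, h1.2⟩⟩
    have hsplit : (mul A u).card + X.card = (mul A h).card := by
      rw [← hYeq, hX]
      exact Finset.card_filter_add_card_filter_not _
    have hYlt : (mul A u).card < m := by
      have := hXn.card_pos
      omega
    -- the weights
    set W : ℝ := max (κ * (((mul A u).card : ℝ) - A.card / 2)) 0 with hW
    set w : ℝ := c * (X.card : ℝ) ^ (1 - ε) with hw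
    have hchain2 := Pool.Agent.K3h56.Lat.t_chain ε hε hε1 (u : ℤ) (zi X) (zi (mul A u)) (by
        intro y hy
        obtain ⟨a, ha, rfl⟩ := mem_zi.1 hy
        exact_mod_cast (mem_mul.1 ha).2) (by
        intro x hx
        obtain ⟨a, ha, rfl⟩ := mem_zi.1 hx
        have := (hmemX.1 ha).2
        exact_mod_cast this) W w (le_max_right _ _) (by positivity) (by
        intro B hB
        rcases le_total (κ * (((mul A u).card : ℝ) - A.card / 2)) 0 with h0 | h0
        · rw [hW, max_eq_right h0, zero_mul]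
          exact Nat.cast_nonneg _
        · rw [hW, max_eq_left h0]
          exact ihm _ hYlt u huA rfl B hB) (by
        intro B hB
        have h1 := ih _ hXlt X rfl hXl hXn B hB
        rw [Real.mul_rpow cX.le (Nat.cast_nonneg _), ← mul_assoc] at h1
        exact h1) B hB
    have hunion : zi X ∪ zi (mul A u) = zi (mul A h) := by
      unfold zi
      rw [← Finset.image_union]
      congr 1
      rw [← hYeq, hX, Finset.union_comm]
      exact Finset.filter_union_filter_not_eq _ _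
    rw [hunion] at hchain2
    refine le_trans ?_ hchain2
    refine mul_le_mul_of_nonneg_right ?_ (by positivity)
    have h1 : κ * X.card ≤ ((2 : ℝ) ^ ε - 1) / 4 * w := by
      rw [hκ, hw, ← hc']
      have h2 : ((A.card : ℝ) / R) ^ (-ε) ≤ (X.card : ℝ) ^ (-ε) := by
        rw [Real.rpow_neg (by positivity), Real.rpow_neg cX.le]
        exact inv_anti₀ (by positivity) (Real.rpow_le_rpow cX.le hXcard hε.le)
      have h3 : (X.card : ℝ) ^ (1 - ε) = (X.card : ℝ) ^ (-ε) * X.card := by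
        rw [sub_eq_neg_add, Real.rpow_add cX, Real.rpow_one]
      rw [h3]
      calc c' * c * ((A.card : ℝ) / R) ^ (-ε) * X.card ≤ c' * c * (X.card : ℝ) ^ (-ε) * X.card :=
            mul_le_mul_of_nonneg_right (mul_le_mul_of_nonneg_left h2 (by positivity)) cX.le
        _ = _ := by ring
    have h2 : (m : ℝ) = ((mul A u).card : ℝ) + X.card := by
      rw [← hm, ← hsplit]; push_cast; rfl
    rw [h2]
    have h3 := le_max_left (κ * (((mul A u).card : ℝ) - A.card / 2)) 0
    rw [← hW] at h3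
    nlinarith
  obtain ⟨h, hh, hmin⟩ := exists_least hA hAn
  have hAh : mul A h = A := Finset.filter_true_of_mem hmin
  have h1 := hchain _ h hh rfl B hB
  rw [hAh] at h1
  refine le_trans ?_ h1
  have cB : (0 : ℝ) < B.card := by exact_mod_cast hB.card_pos
  rw [Real.mul_rpow cA.le cB.le, ← mul_assoc]
  refine mul_le_mul_of_nonneg_right ?_ (by positivity)
  have h2 : κ * ((A.card : ℝ) - A.card / 2) = c * (A.card : ℝ) ^ (1 - ε) := by
    have h3 : ((A.card : ℝ) / R) ^ (-ε) = (A.card : ℝ) ^ (-ε) * R ^ ε := by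
      rw [Real.div_rpow cA.le (by linarith), Real.rpow_neg (by linarith : (0 : ℝ) ≤ R), div_inv_eq_mul]
    have h4 : (A.card : ℝ) ^ (1 - ε) = (A.card : ℝ) ^ (-ε) * A.card := by
      rw [sub_eq_neg_add, Real.rpow_add cA, Real.rpow_one]
    rw [hκ, h3, h4]
    calc c' * c * ((A.card : ℝ) ^ (-ε) * R ^ ε) * ((A.card : ℝ) - A.card / 2) =
          (c' * R ^ ε) / 2 * (c * ((A.card : ℝ) ^ (-ε) * A.card)) := by ring
      _ = _ := by rw [hRε]; ring
  rw [h2]

end Pool.Agent.K3h49.Lat
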