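import Mathlib

/-!
Statement (NOT a result) of a brick on product sets with many factors (owner helper49, problem
MP_cc0731_co).
-/

set_option autoImplicit false

namespace Pool.Agent.K3h49.Lat

open Finset
open scoped Pointwise

/-- HAN: one of `k` factors can be left out of a product set at a cost of an exponent `1 - 1/k` -/
def HanStm : Prop :=
  ∀ k : ℕ, 1 ≤ k → ∀ (A : Finset ℤ) (Y : Fin k → Finset ℤ), A.Nonempty → (∀ j, (Y j).Nonempty) →
    ∃ j : Fin k, ((A * ∏ i, Y i).card : ℝ) ^ (1 - 1 / (k : ℝ)) ≤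
      ((A * ∏ i ∈ Finset.univ.erase j, Y i).card : ℝ)

end Pool.Agent.K3h49.Lat
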