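import Pool.Agent.K3h49.Lat.Final
import Pool.Agent.K3h49.Lat.Stm2

/-!
Sum sets of product sets with many factors.
-/

set_option autoImplicit false

namespace Pool.Agent.K3h49.Lat

open Finset Pool.Agent.TH83.SQ
open scoped Pointwise Classical

/-- iterated sums, for any class of sets -/
theorem kfold_gen (𝒞 : Finset ℤ → Prop)
    (hC : ∀ ε : ℝ, 0 < ε → ∃ c : ℝ, 0 < c ∧ ∀ A : Finset ℤ, A.Nonempty → 𝒞 A →
      ∀ B : Finset ℤ, B.Nonempty →
      c * ((A.card : ℝ) * B.card) ^ (1 - ε) ≤ ((A + B).card : ℝ))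
    (k : ℕ) (ε : ℝ) (hε : 0 < ε) :
    ∃ c : ℝ, 0 < c ∧ ∀ A : Finset ℤ, A.Nonempty → 𝒞 A → ∀ B : Finset ℤ, B.Nonempty →
      c * (A.card : ℝ) ^ ((k : ℝ) - ε) * (B.card : ℝ) ^ (1 - ε) ≤ ((ks k A + B).card : ℝ) := by
  induction k generalizing ε with
  | zero =>
    refine ⟨1, one_pos, fun A hA _ B hB => ?_⟩
    have cA : (1 : ℝ) ≤ A.card := by exact_mod_cast hA.card_pos
    have cB : (1 : ℝ) ≤ B.card := by exact_mod_cast hB.card_pos
    rw [ks_zero]
    have h1 : (({0} : Finset ℤ) + B) = B := by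
      rw [Finset.singleton_zero, zero_add]
    rw [h1]
    have h2 : (A.card : ℝ) ^ (((0 : ℕ) : ℝ) - ε) ≤ 1 := by
      refine Real.rpow_le_one_of_one_le_of_nonpos cA ?_
      push_cast; linarith
    have h3 : (B.card : ℝ) ^ (1 - ε) ≤ (B.card : ℝ) ^ (1 : ℝ) :=
      Real.rpow_le_rpow_of_exponent_le cB (by linarith)
    rw [Real.rpow_one] at h3
    calc 1 * (A.card : ℝ) ^ (((0 : ℕ) : ℝ) - ε) * (B.card : ℝ) ^ (1 - ε) ≤ 1 * 1 * B.card := by
          rw [one_mul, one_mul]
          exact mul_le_mul h2 h3 (by positivity) zero_le_one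
      _ = B.card := by ring
  | succ k ih =>
    set ε₁ : ℝ := min (ε / 2) (1 / 2) with hε₁
    have h10 : 0 < ε₁ := by positivity
    have h12 : ε₁ ≤ 1 / 2 := min_le_right _ _
    have h11 : ε₁ ≤ ε / 2 := min_le_left _ _
    set ε₂ : ℝ := min (ε₁ / (k + 1)) (1 / 2) with hε₂
    have h20 : 0 < ε₂ := by positivity
    have h22 : ε₂ ≤ 1 / 2 := min_le_right _ _
    have h21 : ε₂ * (k + 1) ≤ ε₁ := by
      have := min_le_left (ε₁ / (k + 1)) (1 / 2)
      rw [← hε₂, le_div_iff₀ (by positivity)] at this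
      exact this
    obtain ⟨c, hc, h⟩ := ih ε₁ h10
    obtain ⟨c', hc', h'⟩ := hC ε₂ h20
    refine ⟨c' * c ^ (1 - ε₂), by positivity, ?_⟩
    intro A hA hCA B hB
    have cA : (1 : ℝ) ≤ A.card := by exact_mod_cast hA.card_pos
    have cB : (1 : ℝ) ≤ B.card := by exact_mod_cast hB.card_pos
    have hksn : (ks k A).Nonempty := by
      unfold ks
      refine Finset.Nonempty.image ?_ _
      obtain ⟨a, ha⟩ := hA
      exact ⟨fun _ => a, by rw [Fintype.mem_piFinset]; exact fun _ => ha⟩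
    have h1 := h A hA hCA B hB
    have h2 := h' A hA hCA (ks k A + B) (hksn.add hB)
    have h3 : ((A + (ks k A + B)).card : ℝ) ≤ ((ks (k + 1) A + B).card : ℝ) := by
      rw [← add_assoc]
      exact_mod_cast Finset.card_le_card (Finset.add_subset_add_right (add_ks_subset k A))
    refine le_trans ?_ (h2.trans h3)
    have h4 : (A.card : ℝ) * (c * (A.card : ℝ) ^ ((k : ℝ) - ε₁) * (B.card : ℝ) ^ (1 - ε₁)) ≤
        (A.card : ℝ) * ((ks k A + B).card : ℝ) := mul_le_mul_of_nonneg_left h1 (by linarith)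
    have h5 := Real.rpow_le_rpow (by positivity) h4 (by linarith : (0 : ℝ) ≤ 1 - ε₂)
    refine le_trans ?_ (mul_le_mul_of_nonneg_left h5 hc'.le)
    have e1 : (A.card : ℝ) * (c * (A.card : ℝ) ^ ((k : ℝ) - ε₁) * (B.card : ℝ) ^ (1 - ε₁)) =
        c * ((A.card : ℝ) ^ ((k : ℝ) - ε₁ + 1) * (B.card : ℝ) ^ (1 - ε₁)) := by
      rw [Real.rpow_add (by linarith), Real.rpow_one]; ring
    rw [e1, Real.mul_rpow hc.le (by positivity), Real.mul_rpow (by positivity) (by positivity),
      ← Real.rpow_mul (by linarith), ← Real.rpow_mul (by linarith)]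
    have h6 : (A.card : ℝ) ^ (((k + 1 : ℕ) : ℝ) - ε) ≤
        (A.card : ℝ) ^ (((k : ℝ) - ε₁ + 1) * (1 - ε₂)) := by
      refine Real.rpow_le_rpow_of_exponent_le cA ?_
      push_cast
      nlinarith [mul_pos h10 h20]
    have h7 : (B.card : ℝ) ^ (1 - ε) ≤ (B.card : ℝ) ^ ((1 - ε₁) * (1 - ε₂)) := by
      refine Real.rpow_le_rpow_of_exponent_le cB ?_
      have h8 : ε₂ ≤ ε₁ := by
        have : ε₂ * 1 ≤ ε₂ * (k + 1) := mul_le_mul_of_nonneg_left
          (by have : (0 : ℝ) ≤ k := Nat.cast_nonneg k; linarith) h20.le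
        linarith
      nlinarith [mul_pos h10 h20]
    have h8 : 0 < c ^ (1 - ε₂) := by positivity
    calc c' * c ^ (1 - ε₂) * (A.card : ℝ) ^ (((k + 1 : ℕ) : ℝ) - ε) * (B.card : ℝ) ^ (1 - ε) =
          c' * (c ^ (1 - ε₂) * ((A.card : ℝ) ^ (((k + 1 : ℕ) : ℝ) - ε) *
            (B.card : ℝ) ^ (1 - ε))) := by ring
      _ ≤ _ := by
          refine mul_le_mul_of_nonneg_left (mul_le_mul_of_nonneg_left ?_ h8.le) hc'.le
          exact mul_le_mul h6 h7 (by positivity) (by positivity)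

/-- the residue classes of the indices are large -/
theorem block_card (m k : ℕ) (hk : 0 < k) (j : Fin k) :
    m / k ≤ (Finset.univ.filter fun i : Fin m => i.val % k = j.val).card := by
  have hlt : ∀ t : Fin (m / k), t.val * k + j.val < m := by
    intro t
    have h1 : t.val + 1 ≤ m / k := t.isLt
    have h2 : (t.val + 1) * k ≤ m := (Nat.mul_le_mul_right _ h1).trans (Nat.div_mul_le_self m k)
    have h3 := j.isLt
    nlinarith
  have h := Finset.card_le_card_of_injOn (s := (Finset.univ : Finset (Fin (m / k))))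
    (t := Finset.univ.filter fun i : Fin m => i.val % k = j.val)
    (fun t => ⟨t.val * k + j.val, hlt t⟩) (by
      intro t _
      rw [Finset.mem_coe, Finset.mem_filter]
      refine ⟨Finset.mem_univ _, ?_⟩
      show (t.val * k + j.val) % k = j.val
      rw [Nat.mul_add_mod', Nat.mod_eq_of_lt j.isLt]) (by
      intro t _ t' _ h
      have h1 : t.val * k + j.val = t'.val * k + j.val := congrArg Fin.val h
      have h2 : t.val * k = t'.val * k := by omega
      exact Fin.ext (Nat.eq_of_mul_eq_mul_right hk h2))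
  simpa using h

theorem mem_prodset {ι : Type*} (J : Finset ι) (G : ι → Finset ℤ) (f : ι → ℤ)
    (h : ∀ i ∈ J, f i ∈ G i) : ∏ i ∈ J, f i ∈ ∏ i ∈ J, G i := by
  induction J using Finset.induction_on with
  | empty => simp
  | insert i J hi ih =>
    rw [Finset.prod_insert hi, Finset.prod_insert hi]
    exact Finset.mul_mem_mul (h i (Finset.mem_insert_self _ _))
      (ih fun j hj => h j (Finset.mem_insert_of_mem hj))

theorem prodMain (hH : HanStm) (ε θ : ℝ) (hε : 0 < ε) (hε1 : ε < 1) (hθ : 0 < θ) :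
    ∃ c : ℝ, 0 < c ∧ ∀ (m : ℕ) (A : Finset ℤ) (G : Fin m → Finset ℤ) (q : Fin m → ℕ),
      A.Nonempty → (∀ i, 2 ≤ q i) → (∀ i j, i ≠ j → Nat.Coprime (q i) (q j)) →
      (∀ i, ∃ g ∈ G i, g ≠ 0 ∧ g * q i ∈ G i) →
      θ * Real.log ((A * ∏ i, G i).card : ℝ) ≤ m →
      ∀ B : Finset ℤ, B.Nonempty →
      c * (((A * ∏ i, G i).card : ℝ) * B.card) ^ (1 - ε) ≤ ((A * ∏ i, G i + B).card : ℝ) := by
  -- the number of blocks
  obtain ⟨k, hk⟩ := exists_nat_ge (4 / ε)
  have hk0' : (0 : ℝ) < k := lt_of_lt_of_le (by positivity) hk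
  have hk0 : 0 < k := by exact_mod_cast hk0'
  have hkε : 1 / (k : ℝ) ≤ ε / 4 := by
    rw [div_le_iff₀ hε] at hk
    rw [div_le_div_iff₀ hk0' (by norm_num)]
    linarith
  set θ' : ℝ := θ / (2 * k * (1 + 1 / ε)) with hθ'
  have hθ'0 : 0 < θ' := by positivity
  obtain ⟨C, hC0, hC⟩ := dilates (ε / 4) θ' (by positivity) hθ'0
  set a₀ : ℝ := max (4 * k / θ) (2 * C / ε) with ha₀
  refine ⟨Real.exp (-a₀), Real.exp_pos _, ?_⟩
  intro m A G q hA hq2 hqco hG hm B hB
  have hGn : ∀ i, (G i).Nonempty := fun i => by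
    obtain ⟨g, hg, _⟩ := hG i; exact ⟨g, hg⟩
  have hprodn : ∀ s : Finset (Fin m), (∏ i ∈ s, G i).Nonempty := by
    intro s
    induction s using Finset.induction_on with
    | empty => simp
    | insert i s hi ih => rw [Finset.prod_insert hi]; exact (hGn i).mul ih
  set Z := A * ∏ i, G i with hZ
  have hZn : Z.Nonempty := hA.mul (hprodn _)
  have cZ : (0 : ℝ) < Z.card := by exact_mod_cast hZn.card_pos
  have cZ1 : (1 : ℝ) ≤ Z.card := by exact_mod_cast hZn.card_pos
  have cB : (0 : ℝ) < B.card := by exact_mod_cast hB.card_pos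
  have cB1 : (1 : ℝ) ≤ B.card := by exact_mod_cast hB.card_pos
  set a := Real.log Z.card with ha
  set b := Real.log B.card with hb
  have hb0 : 0 ≤ b := Real.log_natCast_nonneg _
  have ha0 : 0 ≤ a := Real.log_natCast_nonneg _
  have cZB : (0 : ℝ) < (Z + B).card := by exact_mod_cast (hZn.add hB).card_pos
  have htriv : (B.card : ℝ) ≤ ((Z + B).card : ℝ) := by exact_mod_cast card_add_ge hZn
  have hpow : ((Z.card : ℝ) * B.card) ^ (1 - ε) = Real.exp ((1 - ε) * (a + b)) := by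
    rw [Real.rpow_def_of_pos (by positivity), Real.log_mul cZ.ne' cB.ne', mul_comm]
  rw [hpow]
  by_cases hsmall : a < a₀
  · rw [← Real.exp_add]
    refine le_trans (Real.exp_le_exp.2 ?_) (le_trans (le_of_eq (Real.exp_log cB)) htriv)
    rw [← hb]
    nlinarith
  push Not at hsmall
  have haθ : 4 * k / θ ≤ a := (le_max_left _ _).trans hsmall
  have haC : 2 * C / ε ≤ a := (le_max_right _ _).trans hsmall
  -- it suffices to compare logarithms
  have hc1 : Real.exp (-a₀) ≤ 1 := by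
    rw [Real.exp_le_one_iff]
    have : 0 ≤ a₀ := le_trans (by positivity) (le_max_left (4 * k / θ) (2 * C / ε))
    linarith
  suffices hmain : (1 - ε) * (a + b) ≤ Real.log ((Z + B).card : ℝ) by
    calc _ ≤ 1 * Real.exp ((1 - ε) * (a + b)) :=
          mul_le_mul_of_nonneg_right hc1 (Real.exp_pos _).le
      _ ≤ Real.exp (Real.log ((Z + B).card : ℝ)) := by
          rw [one_mul]; exact Real.exp_le_exp.2 hmain
      _ = _ := Real.exp_log cZB
  by_cases hbig : a / ε < b
  · have h1 : b ≤ Real.log ((Z + B).card : ℝ) := Real.log_le_log cB htriv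
    have h2 : a < b * ε := (div_lt_iff₀ hε).1 hbig
    nlinarith
  push Not at hbig
  -- the blocks
  set J : Fin k → Finset (Fin m) := fun j => Finset.univ.filter fun i : Fin m => i.val % k = j.val
    with hJ
  set Y : Fin k → Finset ℤ := fun j => ∏ i ∈ J j, G i with hY
  have hYn : ∀ j, (Y j).Nonempty := fun j => hprodn _
  have hYprod : ∏ j, Y j = ∏ i, G i := by
    rw [hY, hJ]
    have h1 := Finset.prod_fiberwise (Finset.univ : Finset (Fin m))
      (fun i : Fin m => (⟨i.val % k, Nat.mod_lt _ hk0⟩ : Fin k)) G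
    rw [← h1]
    refine Finset.prod_congr rfl fun j _ => Finset.prod_congr ?_ fun _ _ => rfl
    refine Finset.filter_congr fun i _ => ?_
    rw [Fin.ext_iff]
  obtain ⟨j, hj⟩ := hH k hk0 A Y hA hYn
  rw [hYprod, ← hZ] at hj
  set X₀ := A * ∏ i ∈ Finset.univ.erase j, Y i with hX₀
  have hX₀n : X₀.Nonempty := by
    rw [hX₀]
    refine hA.mul ?_
    have : ∀ s : Finset (Fin k), (∏ i ∈ s, Y i).Nonempty := by
      intro s
      induction s using Finset.induction_on with
      | empty => simp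
      | insert i s hi ih => rw [Finset.prod_insert hi]; exact (hYn i).mul ih
    exact this _
  have cX₀ : (0 : ℝ) < X₀.card := by exact_mod_cast hX₀n.card_pos
  have hZX : Z = X₀ * Y j := by
    rw [hZ, hX₀, ← hYprod, mul_assoc, Finset.prod_erase_mul _ _ (Finset.mem_univ j)]
  -- the elements `g i`
  choose g hgG hg0 hgq using hG
  set γ : ℤ := ∏ i ∈ J j, g i with hγ
  have hγ0 : γ ≠ 0 := Finset.prod_ne_zero_iff.2 fun i _ => hg0 i
  set X := dil γ X₀ with hX
  have hXn : X.Nonempty := dil_nonempty hX₀n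
  have hXc : X.card = X₀.card := card_dil hγ0 X₀
  have hqinj : Function.Injective q := by
    intro i i' h
    by_contra hne
    have h1 := hqco i i' hne
    rw [← h, Nat.coprime_self] at h1
    have := hq2 i
    omega
  set P : Finset ℕ := (J j).image q with hP
  have hPc : P.card = (J j).card := Finset.card_image_of_injective _ hqinj
  have hsub : ∀ s ⊆ P, dil (pr s) X ⊆ Z := by
    intro s hs z hz
    obtain ⟨x, hx, rfl⟩ := Finset.mem_image.1 hz
    obtain ⟨x₀, hx₀, rfl⟩ := Finset.mem_image.1 hx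
    rw [hZX]
    refine Finset.mem_mul.2 ⟨x₀, hx₀, pr s * γ, ?_, by ring⟩
    have h1 : pr s * γ = ∏ i ∈ J j, (if q i ∈ s then g i * (q i : ℤ) else g i) := by
      have h2 : pr s = ∏ i ∈ J j, (if q i ∈ s then (q i : ℤ) else 1) := by
        unfold pr
        have h3 : s = ((J j).filter fun i => q i ∈ s).image q := by
          ext p
          rw [Finset.mem_image]
          constructor
          · intro hp
            obtain ⟨i, hi, rfl⟩ := Finset.mem_image.1 (hs hp)
            exact ⟨i, Finset.mem_filter.2 ⟨hi, hp⟩, rfl⟩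
          · rintro ⟨i, hi, rfl⟩
            exact (Finset.mem_filter.1 hi).2
        conv_lhs => rw [h3]
        rw [Finset.prod_image fun i _ i' _ h => hqinj h, Finset.prod_filter]
      rw [h2, hγ, ← Finset.prod_mul_distrib]
      refine Finset.prod_congr rfl fun i _ => ?_
      split_ifs with h
      · ring
      · ring
    rw [h1]
    show _ ∈ ∏ i ∈ J j, G i
    refine mem_prodset _ _ _ fun i _ => ?_
    split_ifs with h
    · exact hgq i
    · exact hgG i
  have hXZ : Real.log X.card ≤ a := by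
    have h1 := hsub ∅ (Finset.empty_subset _)
    have h2 : dil (pr ∅) X = X := by
      have : pr ∅ = 1 := by simp [pr]
      rw [this]
      unfold dil
      simp
    rw [h2] at h1
    refine Real.log_le_log (by exact_mod_cast hXn.card_pos) ?_
    exact_mod_cast Finset.card_le_card h1
  have hXlog : (1 - ε / 4) * a ≤ Real.log X.card := by
    have h1 := Real.log_le_log (by positivity) hj
    rw [Real.log_rpow cZ, ← ha] at h1
    rw [hXc]
    refine le_trans (mul_le_mul_of_nonneg_right ?_ ha0) h1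
    linarith
  have hPsize : θ' * (Real.log X.card + b) ≤ P.card := by
    have h1 : θ' * (Real.log X.card + b) ≤ θ' * (a + a / ε) :=
      mul_le_mul_of_nonneg_left (by linarith) hθ'0.le
    have h2 : θ' * (a + a / ε) = θ * a / (2 * k) := by
      rw [hθ']; field_simp
    have h3 : (m : ℝ) / k < P.card + 1 := by
      rw [hPc]
      have h4 := block_card m k hk0 j
      have h5 : m < (m / k + 1) * k := by
        have := Nat.lt_div_mul_add hk0 (a := m)
        calc m < m / k * k + k := this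
          _ = _ := by ring
      rw [div_lt_iff₀ hk0']
      have h6 : (m : ℝ) < ((m / k : ℕ) + 1) * k := by exact_mod_cast h5
      have h7 : (((m / k : ℕ) : ℝ) + 1) * k ≤ ((J j).card + 1) * k := by
        refine mul_le_mul_of_nonneg_right ?_ hk0'.le
        have : ((m / k : ℕ) : ℝ) ≤ (J j).card := by exact_mod_cast h4
        linarith
      linarith
    have h4 : θ * a / k ≤ m / k := div_le_div_of_nonneg_right hm hk0'.le
    have h5 : 4 ≤ θ * a / k := by
      rw [le_div_iff₀ hk0']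
      rw [div_le_iff₀ hθ] at haθ
      linarith
    have h6 : θ * a / (2 * k) = θ * a / k / 2 := by
      field_simp
    linarith
  obtain ⟨s, hs, hsX⟩ := hC P (fun p hp => by
      obtain ⟨i, _, rfl⟩ := Finset.mem_image.1 hp
      exact hq2 i) (fun p hp p' hp' hne => by
      obtain ⟨i, _, rfl⟩ := Finset.mem_image.1 hp
      obtain ⟨i', _, rfl⟩ := Finset.mem_image.1 hp'
      exact hqco i i' fun h => hne (by rw [h])) X B hXn hB hPsize
  have hfin : Real.log ((dil (pr s) X + B).card : ℝ) ≤ Real.log ((Z + B).card : ℝ) := by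
    refine Real.log_le_log ?_ ?_
    · exact_mod_cast ((dil_nonempty hXn).add hB).card_pos
    · exact_mod_cast Finset.card_le_card (Finset.add_subset_add_right (hsub s hs))
  refine le_trans ?_ (hsX.trans hfin)
  rw [← hb]
  have h1 : (1 - ε / 4) * ((1 - ε / 4) * a + b) ≤ (1 - ε / 4) * (Real.log X.card + b) :=
    mul_le_mul_of_nonneg_left (by linarith) (by linarith)
  have h2 : 2 * C ≤ a * ε := by rwa [div_le_iff₀ hε] at haC
  have h3 : 0 ≤ ε * b := by positivity
  have h4 : 0 ≤ ε ^ 2 * a := by positivity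
  nlinarith

end Pool.Agent.K3h49.Lat

namespace Pool.Agent.K3h49.Lat

open Finset Pool.Agent.TH83.SQ
open scoped Pointwise Classical

theorem prodset_nonempty {m : ℕ} {A : Finset ℤ} {G : Fin m → Finset ℤ} {q : Fin m → ℕ}
    (hA : A.Nonempty) (hG : ∀ i, ∃ g ∈ G i, g ≠ 0 ∧ g * q i ∈ G i) :
    (A * ∏ i, G i).Nonempty := by
  choose g hgG _ _ using hG
  obtain ⟨a, ha⟩ := hA
  exact ⟨a * ∏ i, g i, Finset.mul_mem_mul ha (mem_prodset _ _ _ fun i _ => hgG i)⟩

theorem prodMain' (hH : HanStm) (ε θ : ℝ) (hε : 0 < ε) (hθ : 0 < θ) :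
    ∃ c : ℝ, 0 < c ∧ ∀ (m : ℕ) (A : Finset ℤ) (G : Fin m → Finset ℤ) (q : Fin m → ℕ),
      A.Nonempty → (∀ i, 2 ≤ q i) → (∀ i j, i ≠ j → Nat.Coprime (q i) (q j)) →
      (∀ i, ∃ g ∈ G i, g ≠ 0 ∧ g * q i ∈ G i) →
      θ * Real.log ((A * ∏ i, G i).card : ℝ) ≤ m →
      ∀ B : Finset ℤ, B.Nonempty →
      c * (((A * ∏ i, G i).card : ℝ) * B.card) ^ (1 - ε) ≤ ((A * ∏ i, G i + B).card : ℝ) := by
  obtain ⟨c, hc, h⟩ := prodMain hH (min ε (1 / 2)) θ (by positivity)
    (lt_of_le_of_lt (min_le_right _ _) (by norm_num)) hθ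
  refine ⟨c, hc, fun m A G q hA hq hco hG hm B hB => le_trans ?_ (h m A G q hA hq hco hG hm B hB)⟩
  have h1 : (1 : ℝ) ≤ (A * ∏ i, G i).card := by
    exact_mod_cast (prodset_nonempty hA hG).card_pos
  have h2 : (1 : ℝ) ≤ B.card := by exact_mod_cast hB.card_pos
  refine mul_le_mul_of_nonneg_left ?_ hc.le
  exact Real.rpow_le_rpow_of_exponent_le (by nlinarith)
    (by have := min_le_left ε (1 / 2); linarith)

theorem prodFold (hH : HanStm) (θ : ℝ) (hθ : 0 < θ) (k : ℕ) (ε : ℝ) (hε : 0 < ε) :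
    ∃ c : ℝ, 0 < c ∧ ∀ (m : ℕ) (A : Finset ℤ) (G : Fin m → Finset ℤ) (q : Fin m → ℕ),
      A.Nonempty → (∀ i, 2 ≤ q i) → (∀ i j, i ≠ j → Nat.Coprime (q i) (q j)) →
      (∀ i, ∃ g ∈ G i, g ≠ 0 ∧ g * q i ∈ G i) →
      θ * Real.log ((A * ∏ i, G i).card : ℝ) ≤ m →
      ∀ B : Finset ℤ, B.Nonempty →
      c * ((A * ∏ i, G i).card : ℝ) ^ ((k : ℝ) - ε) * (B.card : ℝ) ^ (1 - ε) ≤
        ((ks k (A * ∏ i, G i) + B).card : ℝ) := by
  obtain ⟨c, hc, h⟩ := kfold_gen (fun Z => ∃ (m : ℕ) (A : Finset ℤ) (G : Fin m → Finset ℤ)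
      (q : Fin m → ℕ), Z = A * ∏ i, G i ∧ A.Nonempty ∧ (∀ i, 2 ≤ q i) ∧
      (∀ i j, i ≠ j → Nat.Coprime (q i) (q j)) ∧
      (∀ i, ∃ g ∈ G i, g ≠ 0 ∧ g * q i ∈ G i) ∧
      θ * Real.log ((A * ∏ i, G i).card : ℝ) ≤ m) (by
    intro ε hε
    obtain ⟨c, hc, h⟩ := prodMain' hH ε θ hε hθ
    refine ⟨c, hc, ?_⟩
    rintro Z _ ⟨m, A, G, q, rfl, hA, hq, hco, hG, hm⟩ B hB
    exact h m A G q hA hq hco hG hm B hB) k ε hε
  refine ⟨c, hc, fun m A G q hA hq hco hG hm B hB => ?_⟩
  exact h _ (prodset_nonempty hA hG) ⟨m, A, G, q, rfl, hA, hq, hco, hG, hm⟩ B hB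

end Pool.Agent.K3h49.Lat
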